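import Mathlib
import Pool.Agent.V5helper30.OP.Act

set_option autoImplicit false

/-!
# Modules in which every element is the sum of fixed vectors of `w` and of `u`
-/

namespace Pool.Agent.V5helper30.OQ

/-- the action of a group on an elementary abelian normal subgroup, in additive notation -/
theorem actp {F : Type} [Group F] (V : Subgroup F) [hV : V.Normal]
    (hab : ∀ v ∈ V, ∀ w ∈ V, v * w = w * v) {p : ℕ} (hpow : ∀ v ∈ V, v ^ p = 1) :
    ∃ (M : Type) (_ : AddCommGroup M) (e : M → F) (Φ : F →* AddMonoid.End M),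
      Function.Injective e ∧ (∀ a : M, e a ∈ V) ∧ (∀ v ∈ V, ∃ a, e a = v) ∧ e 0 = 1 ∧
      (∀ a b : M, e (a + b) = e a * e b) ∧ (∀ a b : M, e (a - b) = e a * (e b)⁻¹) ∧
      (∀ (g : F) (a : M), e (Φ g a) = g * e a * g⁻¹) ∧ (∀ v ∈ V, Φ v = 1) ∧
      (∀ a : M, p • a = 0) := by
  obtain ⟨M, inst, e, Φ, he, hΦ⟩ := OP.exists_act V hab
  have e0 : e 0 = 1 := by
    have h := he 0 0
    rw [add_zero] at h
    exact left_eq_mul.1 h
  have esub : ∀ a b : M, e (a - b) = e a * (e b)⁻¹ := by
    intro a b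
    rw [eq_mul_inv_iff_mul_eq, ← he, sub_add_cancel]
  have ensm : ∀ (k : ℕ) (a : M), e (k • a) = e a ^ k := by
    intro k a
    induction k with
    | zero => rw [zero_smul, pow_zero, e0]
    | succ k ih => rw [succ_nsmul, he, ih, pow_succ]
  refine ⟨M, inst, fun a => (e a : F), Φ, fun a b h => e.injective (Subtype.ext h),
    fun a => (e a).2, fun v hv => ⟨e.symm ⟨v, hv⟩, by simp⟩, by simp only [e0]; rfl,
    fun a b => by simp only [he]; rfl, fun a b => by simp only [esub]; rfl, hΦ, fun v hv => ?_, ?_⟩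
  · refine AddMonoidHom.ext fun a => ?_
    apply e.injective
    apply Subtype.ext
    have h := hΦ v a
    rw [hab v hv _ (e a).2, mul_inv_cancel_right] at h
    exact h
  · intro a
    apply e.injective
    rw [ensm, e0]
    apply Subtype.ext
    have := hpow _ (e a).2
    exact this

section module

variable {F : Type} [Group F] {M : Type} [AddCommGroup M] (Φ : F →* AddMonoid.End M)

theorem act_mul (g h : F) (x : M) : Φ (g * h) x = Φ g (Φ h x) := by
  rw [map_mul]
  rfl

theorem act_one (x : M) : Φ 1 x = x := by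
  rw [map_one]
  rfl

theorem act_inj (g : F) {x y : M} (h : Φ g x = Φ g y) : x = y := by
  have h1 : Φ g⁻¹ (Φ g x) = Φ g⁻¹ (Φ g y) := by rw [h]
  rwa [← act_mul, ← act_mul, inv_mul_cancel, act_one, act_one] at h1

theorem act_inv {g : F} {x : M} (h : Φ g x = x) : Φ g⁻¹ x = x := by
  apply act_inj Φ g
  rw [← act_mul, mul_inv_cancel, act_one, h]

theorem act_pow {g : F} {x : M} (h : Φ g x = x) (k : ℕ) : Φ (g ^ k) x = x := by
  induction k with
  | zero => rw [pow_zero, act_one]
  | succ k ih => rw [pow_succ, act_mul, h, ih]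

/-- the stabiliser of a vector -/
def stab (x : M) : Subgroup F where
  carrier := {g | Φ g x = x}
  one_mem' := act_one Φ x
  mul_mem' := by
    intro g h hg hh
    change Φ (g * h) x = x
    rw [act_mul, show Φ h x = x from hh, show Φ g x = x from hg]
  inv_mem' := fun hg => act_inv Φ hg

theorem mem_stab {x : M} {g : F} : g ∈ stab Φ x ↔ Φ g x = x := Iff.rfl

theorem cancel_nsmul {p N : ℕ} (hM : ∀ a : M, p • a = 0) (hN : Nat.Coprime N p) {x : M}
    (h : N • x = 0) : x = 0 := by
  have h1 := addOrderOf_dvd_of_nsmul_eq_zero h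
  have h2 := addOrderOf_dvd_of_nsmul_eq_zero (hM x)
  have h3 := Nat.dvd_gcd h1 h2
  rw [hN, Nat.dvd_one, AddMonoid.addOrderOf_eq_one_iff] at h3
  exact h3

/-- coprime action: a fixed vector of the form `g x - x` vanishes -/
theorem fix_comm {p s : ℕ} (hM : ∀ a : M, p • a = 0) (hs : Nat.Coprime s p) {g : F}
    (hg : g ^ s = 1) {x : M} (h : Φ g (Φ g x - x) = Φ g x - x) : Φ g x = x := by
  have h1 : ∀ k : ℕ, Φ (g ^ k) x = x + k • (Φ g x - x) := by
    intro k
    induction k with
    | zero => rw [pow_zero, act_one, zero_smul, add_zero]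
    | succ k ih =>
      rw [pow_succ', act_mul, ih, map_add, map_nsmul, h, succ_nsmul]
      abel
  have h2 := h1 s
  rw [hg, act_one, left_eq_add] at h2
  exact sub_eq_zero.1 (cancel_nsmul hM hs h2)

/-- a fixed vector `g x - x`, when the difference is fixed by a larger subgroup -/
theorem fix_comm' {p s : ℕ} (hM : ∀ a : M, p • a = 0) (hs : Nat.Coprime s p) {g : F}
    (hg : g ^ s = 1) {x y : M} (hy : y = Φ g x - x) (h : Φ g y = y) : y = 0 := by
  rw [hy, fix_comm Φ hM hs hg (by rw [← hy]; exact h), sub_self]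

end module

end Pool.Agent.V5helper30.OQ
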