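import Mathlib
import Pool.Agent.V5helper30.OQ.Mod

set_option autoImplicit false

/-!
# Modules in which every element is the sum of fixed vectors of `w` and of `u`: abelian groups
-/

namespace Pool.Agent.V5helper30.OQ

variable {F : Type} [Group F] {M : Type} [AddCommGroup M] (Φ : F →* AddMonoid.End M)

/-- a subgroup is not the union of two proper subgroups -/
theorem not_union {U B C : Subgroup F} (hB : ¬ U ≤ B) (hC : ¬ U ≤ C) :
    ∃ u ∈ U, u ∉ B ∧ u ∉ C := by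
  obtain ⟨b, hb, hb'⟩ := Set.not_subset.1 hB
  obtain ⟨c, hc, hc'⟩ := Set.not_subset.1 hC
  by_cases h1 : b ∈ C
  · by_cases h2 : c ∈ B
    · refine ⟨b * c, mul_mem hb hc, fun h => ?_, fun h => ?_⟩
      · exact hb' ((mul_mem_cancel_right (show c ∈ B from h2)).1 h)
      · exact hc' ((mul_mem_cancel_left (show b ∈ C from h1)).1 h)
    · exact ⟨c, hc, h2, hc'⟩
  · exact ⟨b, hb, hb', h1⟩

/-- the abelian case -/
theorem star_ab {p s N : ℕ} (hM : ∀ a : M, p • a = 0) (hs : Nat.Coprime s p)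
    (hN : Nat.Coprime N p) {w : F} (U : Subgroup F) (hUf : Finite U)
    (hUab : ∀ u ∈ U, ∀ v ∈ U, u * v = v * u) (hUs : ∀ u ∈ U, u ^ s = 1)
    (hwU : ∀ u ∈ U, w * u * w⁻¹ ∈ U)
    (hirr : ∀ B : Subgroup F, B ≤ U → (∀ b ∈ B, w * b * w⁻¹ ∈ B) → B = ⊥ ∨ B = U)
    (hfpf : ∀ u ∈ U, u ≠ 1 → w * u ≠ u * w)
    (hZ : ∀ u ∈ U, u ≠ 1 → ∀ v : M, ∃ y : M, Φ w y = y ∧ Φ u (y + N • v) = y + N • v) :
    ∀ u ∈ U, ∀ v : M, Φ u v = v := by
  by_contra hcon
  push Not at hcon
  obtain ⟨u0, hu0, v0, hv0⟩ := hcon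
  -- a maximal subgroup with a fixed vector not fixed by `U`
  obtain ⟨P, hP⟩ : ∃ P : Subgroup F → Prop, P = fun B => B ≤ U ∧ ∃ v : M, (∀ b ∈ B, Φ b v = v) ∧
    ∃ u ∈ U, Φ u v ≠ v := ⟨_, rfl⟩
  have hfin : Finite {B : Subgroup F // P B} := by
    have hf : Finite (Subgroup U) := inferInstance
    refine Finite.of_injective (β := Subgroup U) (fun B => B.1.subgroupOf U) ?_
    rintro ⟨B, hB⟩ ⟨C, hC⟩ h
    rw [hP] at hB hC
    apply Subtype.ext
    have h1 := (Subgroup.subgroupOf_inj).1 h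
    change B = C
    rw [inf_eq_left.2 hB.1, inf_eq_left.2 hC.1] at h1
    exact h1
  have hne : Nonempty {B : Subgroup F // P B} := ⟨⟨⊥, by
    rw [hP]
    refine ⟨bot_le, v0, fun b hb => ?_, u0, hu0, hv0⟩
    rw [Subgroup.mem_bot.1 hb, act_one]⟩⟩
  obtain ⟨⟨B, hB⟩, hmax⟩ := Finite.exists_max (fun B : {B : Subgroup F // P B} => Nat.card B.1)
  rw [hP] at hB
  obtain ⟨hBU, v, hv, u1, hu1, hv1⟩ := hB
  have hmax' : ∀ C : Subgroup F, B ≤ C → C ≤ U → (∃ v : M, (∀ b ∈ C, Φ b v = v) ∧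
      ∃ u ∈ U, Φ u v ≠ v) → C ≤ B := by
    intro C hBC hCU hC
    have h1 := hmax ⟨C, by rw [hP]; exact ⟨hCU, hC⟩⟩
    have hCf : Finite C := Finite.of_injective (Subgroup.inclusion hCU)
      (Subgroup.inclusion_injective _)
    exact (Subgroup.eq_of_le_of_card_ge hBC h1).ge
  -- vectors fixed by `B` and an element outside `B` are fixed by `U`
  have key : ∀ x : M, (∀ b ∈ B, Φ b x = x) → ∀ u ∈ U, u ∉ B → Φ u x = x → ∀ g ∈ U, Φ g x = x := by
    intro x hx u hu huB hux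
    by_contra hcon
    push Not at hcon
    have h1 := hmax' (B ⊔ Subgroup.zpowers u) le_sup_left
      (sup_le hBU (by rw [Subgroup.zpowers_le]; exact hu)) ⟨x, fun b hb => ?_, hcon⟩
    · exact huB (h1 ((le_sup_right : Subgroup.zpowers u ≤ B ⊔ Subgroup.zpowers u)
        (Subgroup.mem_zpowers u)))
    · have h2 : B ⊔ Subgroup.zpowers u ≤ stab Φ x := by
        refine sup_le hx ?_
        rw [Subgroup.zpowers_le]
        exact hux
      exact h2 hb
  have hBne : ¬ U ≤ B := fun h => hv1 (hv u1 (h hu1))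
  have hcomm : ∀ g ∈ U, ∀ h ∈ U, ∀ x : M, Φ g (Φ h x) = Φ h (Φ g x) := by
    intro g hg h hh x
    rw [← act_mul, ← act_mul, hUab g hg h hh]
  -- the conjugate of `B`
  obtain ⟨C, hC⟩ : ∃ C : Subgroup F, C = B.map (MulAut.conj w).toMonoidHom := ⟨_, rfl⟩
  have hmemC : ∀ b ∈ B, w * b * w⁻¹ ∈ C := by
    intro b hb
    rw [hC]
    exact ⟨b, hb, rfl⟩
  have hmemC' : ∀ c ∈ C, ∃ b ∈ B, c = w * b * w⁻¹ := by
    intro c hc
    rw [hC] at hc
    obtain ⟨b, hb, rfl⟩ := hc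
    exact ⟨b, hb, rfl⟩
  have hCU : C ≤ U := by
    intro c hc
    obtain ⟨b, hb, rfl⟩ := hmemC' c hc
    exact hwU b (hBU hb)
  have hcard : Nat.card C = Nat.card B := by
    rw [hC]
    exact Nat.card_congr (B.equivMapOfInjective _ (MulAut.conj w).injective).toEquiv.symm
  have hUf' : ∀ D : Subgroup F, D ≤ U → Finite D := fun D hD =>
    Finite.of_injective (Subgroup.inclusion hD) (Subgroup.inclusion_injective _)
  obtain ⟨D, hD⟩ : ∃ D : Subgroup F, D = B.comap (MulAut.conj w).toMonoidHom := ⟨_, rfl⟩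
  have hmemD : ∀ d, d ∈ D ↔ w * d * w⁻¹ ∈ B := by
    intro d
    rw [hD]
    exact Iff.rfl
  have hDne : ¬ U ≤ D := by
    intro h
    -- `w U w⁻¹ ≤ B`
    have h1 : U.map (MulAut.conj w).toMonoidHom ≤ B := by
      rintro _ ⟨u, hu, rfl⟩
      exact (hmemD u).1 (h hu)
    have h2 : Nat.card (U.map (MulAut.conj w).toMonoidHom) = Nat.card U :=
      Nat.card_congr (U.equivMapOfInjective _ (MulAut.conj w).injective).toEquiv.symm
    have hBf := hUf' B hBU
    have h3 := Subgroup.card_le_of_le h1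
    rw [h2] at h3
    exact hBne (Subgroup.eq_of_le_of_card_ge hBU h3).ge
  have hwB : C = B := by
    by_contra hne
    obtain ⟨u, hu, huB, huD⟩ := not_union hBne hDne
    have hu' : w * u * w⁻¹ ∉ B := fun h => huD ((hmemD u).2 h)
    obtain ⟨u', hu'd⟩ : ∃ u', u' = w * u * w⁻¹ := ⟨_, rfl⟩
    have hu'U : u' ∈ U := by rw [hu'd]; exact hwU u hu
    rw [← hu'd] at hu'
    have hu1' : u ≠ 1 := by
      rintro rfl
      exact huB (one_mem _)
    obtain ⟨y, hy1, hy2⟩ := hZ u hu hu1' v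
    -- `(u - 1) y = - N (u - 1) v`
    obtain ⟨d, hd⟩ : ∃ d, d = Φ u v - v := ⟨_, rfl⟩
    have h1 : Φ u y - y = -(N • d) := by
      rw [map_add, map_nsmul] at hy2
      rw [hd, nsmul_sub]
      have h2 : Φ u y = y + N • v - N • Φ u v := by rw [← hy2]; abel
      rw [h2]
      abel
    have h2 : Φ u' y - y = -(N • Φ w d) := by
      have h3 : Φ u' y = Φ w (Φ u y) := by
        have h4 : Φ w⁻¹ y = y := act_inv Φ hy1
        rw [hu'd, act_mul, act_mul, h4]
      have h5 := congrArg (Φ w) h1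
      rw [map_sub, map_neg, map_nsmul, hy1, ← h3] at h5
      exact h5
    have hdB : ∀ b ∈ B, Φ b d = d := by
      intro b hb
      rw [hd, map_sub, hv b hb, hcomm b (hBU hb) u hu, hv b hb]
    obtain ⟨q, hq⟩ : ∃ q, q = Φ u' (Φ u y - y) - (Φ u y - y) := ⟨_, rfl⟩
    have hq1 : q = -(N • (Φ u' d - d)) := by
      rw [hq, h1, map_neg, map_nsmul, nsmul_sub]
      abel
    have hq2 : q = Φ u (Φ u' y - y) - (Φ u' y - y) := by
      rw [hq, map_sub, map_sub, hcomm u' hu'U u hu]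
      abel
    have hq3 : q = -(N • (Φ u (Φ w d) - Φ w d)) := by
      rw [hq2, h2, map_neg, map_nsmul, nsmul_sub]
      abel
    have hqB : ∀ b ∈ B, Φ b q = q := by
      intro b hb
      rw [hq1, map_neg, map_nsmul, map_sub, hcomm b (hBU hb) u' hu'U, hdB b hb]
    have hqC : ∀ c ∈ C, Φ c q = q := by
      intro c hc
      have h3 : Φ c (Φ w d) = Φ w d := by
        obtain ⟨b, hb, rfl⟩ := hmemC' c hc
        rw [act_mul, act_mul, ← act_mul Φ w⁻¹ w, inv_mul_cancel, act_one, hdB b hb]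
      rw [hq3, map_neg, map_nsmul, map_sub, hcomm c (hCU hc) u hu, h3]
    have hqU : ∀ g ∈ U, Φ g q = q := by
      by_contra hcon
      push Not at hcon
      have h3 := hmax' (B ⊔ C) le_sup_left (sup_le hBU hCU) ⟨q, fun b hb => ?_, hcon⟩
      · have h4 : C ≤ B := le_sup_right.trans h3
        have hBf := hUf' B hBU
        exact hne (Subgroup.eq_of_le_of_card_ge h4 hcard.ge)
      · exact (sup_le hqB hqC : B ⊔ C ≤ stab Φ q) hb
    have hq0 : q = 0 := fix_comm' Φ hM hs (hUs u' hu'U) hq (hqU u' hu'U)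
    have h3 : Φ u' d - d = 0 := by
      apply cancel_nsmul hM hN
      rw [hq1, neg_eq_zero] at hq0
      exact hq0
    have h4 := key d hdB u' hu'U hu' (sub_eq_zero.1 h3)
    have h5 : Φ u v = v := fix_comm Φ hM hs (hUs u hu) (by rw [← hd]; exact h4 u hu)
    exact hv1 (key v hv u hu huB h5 u1 hu1)
  have hBinv : ∀ b ∈ B, w * b * w⁻¹ ∈ B := by
    intro b hb
    have h1 := hmemC b hb
    rwa [hwB] at h1
  rcases hirr B hBU hBinv with hB | hB
  swap
  · exact hBne hB.ge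
  -- elements different from `1` have the same fixed vectors as `U`
  have key2 : ∀ u ∈ U, u ≠ 1 → ∀ x : M, Φ u x = x → ∀ g ∈ U, Φ g x = x := by
    intro u hu hu1 x hx
    refine key x (fun b hb => ?_) u hu (by rw [hB, Subgroup.mem_bot]; exact hu1) hx
    rw [hB, Subgroup.mem_bot] at hb
    rw [hb, act_one]
  have hu11 : u1 ≠ 1 := by
    rintro rfl
    exact hv1 (act_one Φ v)
  -- `w` acts trivially modulo the fixed vectors of `U`
  have key3 : ∀ x : M, ∀ g ∈ U, Φ g (Φ w x - x) = Φ w x - x := by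
    intro x
    obtain ⟨y, hy1, hy2⟩ := hZ u1 hu1 hu11 x
    have h1 := key2 u1 hu1 hu11 _ hy2
    intro g hg
    have h2 : ∀ g ∈ U, Φ g (Φ w (y + N • x)) = Φ w (y + N • x) := by
      intro g hg
      -- conjugate
      obtain ⟨b, hb, rfl⟩ : ∃ b ∈ U, g = w * b * w⁻¹ := by
        have h3 : U.map (MulAut.conj w).toMonoidHom = U := by
          refine Subgroup.eq_of_le_of_card_ge ?_ ?_
          · rintro _ ⟨u, hu, rfl⟩
            exact hwU u hu
          · rw [Nat.card_congr (U.equivMapOfInjective _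
              (MulAut.conj w).injective).toEquiv.symm]
        have h4 : g ∈ U.map (MulAut.conj w).toMonoidHom := by rw [h3]; exact hg
        obtain ⟨b, hb, rfl⟩ := h4
        exact ⟨b, hb, rfl⟩
      rw [act_mul, act_mul, ← act_mul Φ w⁻¹ w, inv_mul_cancel, act_one, h1 b hb]
    have h3 : N • (Φ g (Φ w x - x) - (Φ w x - x)) = 0 := by
      have h4 := h2 g hg
      have h5 := h1 g hg
      rw [map_add (Φ w), map_nsmul (Φ w), hy1] at h4
      have h6 : N • (Φ w x - x) = (y + N • Φ w x) - (y + N • x) := by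
        rw [nsmul_sub]
        abel
      rw [nsmul_sub, ← map_nsmul, h6, map_sub, h4, h5, sub_self]
    exact sub_eq_zero.1 (cancel_nsmul hM hN h3)
  -- commutators with `w` act trivially
  obtain ⟨c, hc⟩ : ∃ c, c = w * u1 * w⁻¹ * u1⁻¹ := ⟨_, rfl⟩
  have hcU : c ∈ U := by
    rw [hc]
    exact mul_mem (hwU u1 hu1) (inv_mem hu1)
  have hc1 : c ≠ 1 := by
    intro h
    rw [h, eq_comm, mul_inv_eq_one, mul_inv_eq_iff_eq_mul] at hc
    exact hfpf u1 hu1 hu11 hc
  have hcx : ∀ x : M, Φ c x = x := by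
    intro x
    refine fix_comm Φ hM hs (hUs c hcU) ?_
    -- `c x - x` is fixed by `U`
    obtain ⟨z, hz⟩ : ∃ z, z = Φ u1⁻¹ x := ⟨_, rfl⟩
    have hzx : Φ u1 z = x := by rw [hz, ← act_mul, mul_inv_cancel, act_one]
    obtain ⟨t, ht⟩ : ∃ t, t = Φ w⁻¹ z := ⟨_, rfl⟩
    have htz : Φ w t = z := by rw [ht, ← act_mul, mul_inv_cancel, act_one]
    have h1 : Φ c x = Φ w (Φ u1 t) := by
      rw [hc, act_mul, act_mul, act_mul, ← hz, ← ht]
    have h2 : Φ c x - x = (Φ w (Φ u1 t) - Φ u1 t) - (Φ u1 (Φ w t - t)) := by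
      rw [h1, map_sub, htz, hzx]
      abel
    have h3 : ∀ g ∈ U, Φ g (Φ c x - x) = Φ c x - x := by
      intro g hg
      rw [h2, map_sub, key3 _ g hg]
      congr 1
      rw [key3 t u1 hu1, key3 t g hg]
    exact h3 c hcU
  exact hv1 (key2 c hcU hc1 v (hcx v) u1 hu1)

end Pool.Agent.V5helper30.OQ
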