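import Mathlib
import Pool.Agent.V5helper30.OQ.Mod

set_option autoImplicit false

/-!
# Modules in which every element is the sum of fixed vectors of `w` and of `u`: nonabelian groups
-/

namespace Pool.Agent.V5helper30.OQ

variable {F : Type} [Group F] {M : Type} [AddCommGroup M] (Φ : F →* AddMonoid.End M)

/-- the image of `e - 1` -/
def XX (e : F) : AddSubgroup M := (Φ e - 1 : AddMonoid.End M).range

theorem mem_XX {e : F} {x : M} : x ∈ XX Φ e ↔ ∃ v, Φ e v - v = x := Iff.rfl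

theorem XX_fix {p s : ℕ} (hM : ∀ a : M, p • a = 0) (hs : Nat.Coprime s p) {e : F}
    (he : e ^ s = 1) {x : M} (hx : x ∈ XX Φ e) (h : Φ e x = x) : x = 0 := by
  obtain ⟨v, rfl⟩ := (mem_XX Φ).1 hx
  exact fix_comm' Φ hM hs he rfl h

theorem XX_act {e g : F} (hge : g * e = e * g) {x : M} (hx : x ∈ XX Φ e) : Φ g x ∈ XX Φ e := by
  obtain ⟨v, rfl⟩ := (mem_XX Φ).1 hx
  refine (mem_XX Φ).2 ⟨Φ g v, ?_⟩
  rw [map_sub, ← act_mul, ← act_mul, hge]

/-- the fixed vectors in the image of `e - 1` -/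
def CX (e g : F) : AddSubgroup M where
  carrier := {x | x ∈ XX Φ e ∧ Φ g x = x}
  zero_mem' := ⟨zero_mem _, map_zero _⟩
  add_mem' := fun ha hb => ⟨add_mem ha.1 hb.1, by rw [map_add, ha.2, hb.2]⟩
  neg_mem' := fun ha => ⟨neg_mem ha.1, by rw [map_neg, ha.2]⟩

theorem numb {x a b : ℕ} (hx : 0 < x) (h1 : x ≤ a * b) (h2 : a * a ≤ x) (h3 : b * (b * b) ≤ x) :
    x = 1 := by
  have h4 : x ^ 6 ≤ x ^ 5 := by
    calc x ^ 6 ≤ (a * b) ^ 6 := Nat.pow_le_pow_left h1 6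
      _ = (a * a) ^ 3 * (b * (b * b)) ^ 2 := by ring
      _ ≤ x ^ 3 * x ^ 2 := Nat.mul_le_mul (Nat.pow_le_pow_left h2 3) (Nat.pow_le_pow_left h3 2)
      _ = x ^ 5 := by ring
  by_contra hne
  have h5 : 1 < x := by omega
  exact absurd (Nat.pow_lt_pow_right h5 (show 5 < 6 by norm_num)) (not_lt.2 h4)

/-- the nonabelian case -/
theorem star_non [Finite M] {p s N : ℕ} (hM : ∀ a : M, p • a = 0) (hs : Nat.Coprime s p)
    (hs2 : ¬ 2 ∣ s) (hN : Nat.Coprime N p) {w u u' e : F} (hes : e ^ s = 1)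
    (he : u' * u * u'⁻¹ = u * e) (hue : u * e = e * u) (hu'e : u' * e = e * u')
    (hwe : w * e = e * w)
    (hgen : ∀ K : Subgroup F, w ∈ K → w⁻¹ * u * w * u⁻¹ ∈ K → e ∈ K)
    (hZ : ∀ v : M, ∃ y : M, Φ w y = y ∧ Φ u (y + N • v) = y + N • v) :
    ∀ v : M, Φ e v = v := by
  obtain ⟨k, hk⟩ : ∃ k : ℕ, ∀ x : M, N • (k • x) = x := by
    obtain ⟨a, ha1, ha2⟩ := Nat.chineseRemainder hN 0 1
    obtain ⟨k, hk⟩ := (Nat.modEq_zero_iff_dvd).1 ha1
    refine ⟨k, fun x => ?_⟩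
    rw [smul_smul, ← hk]
    have h1 : ∀ j : ℕ, (1 + p * j) • x = x := by
      intro j
      rw [add_smul, one_smul, mul_comm, mul_smul, hM, smul_zero, add_zero]
    rcases Nat.lt_or_ge a 1 with h2 | h2
    · have h3 : a = 0 := by omega
      rw [h3] at ha2 ⊢
      have h4 : p ∣ 1 := (Nat.modEq_zero_iff_dvd).1 ha2.symm
      rw [Nat.dvd_one.1 h4] at hM
      have := hM x
      rw [one_smul] at this
      rw [this, smul_zero]
    · obtain ⟨j, hj⟩ := (Nat.modEq_iff_dvd' h2).1 ha2.symm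
      have h3 : a = 1 + p * j := by omega
      rw [h3]
      exact h1 j
  -- (1)
  have h1 : Nat.card (XX Φ e) ≤ Nat.card (CX Φ e w) * Nat.card (CX Φ e u) := by
    rw [← Nat.card_prod]
    refine Nat.card_le_card_of_surjective
      (fun z : CX Φ e w × CX Φ e u => (⟨z.2.1 - z.1.1, sub_mem z.2.2.1 z.1.2.1⟩ : XX Φ e)) ?_
    rintro ⟨x, hx⟩
    obtain ⟨v, hv⟩ := (mem_XX Φ).1 hx
    obtain ⟨y, hy1, hy2⟩ := hZ (k • v)
    rw [hk] at hy2
    have h2 : Φ e (y + v) - (y + v) = (Φ e y - y) + x := by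
      rw [map_add, ← hv]
      abel
    refine ⟨⟨⟨Φ e y - y, (mem_XX Φ).2 ⟨y, rfl⟩, ?_⟩, ⟨(Φ e y - y) + x, ?_, ?_⟩⟩, ?_⟩
    · rw [map_sub, ← act_mul, hwe, act_mul, hy1]
    · exact (mem_XX Φ).2 ⟨y + v, h2⟩
    · rw [← h2, map_sub, ← act_mul, hue, act_mul, hy2]
    · apply Subtype.ext
      simp
  -- (2)
  have h2 : Nat.card (CX Φ e w) * Nat.card (CX Φ e w) ≤ Nat.card (XX Φ e) := by
    rw [← Nat.card_prod]
    refine Nat.card_le_card_of_injective
      (fun z : CX Φ e w × CX Φ e w => (⟨z.1.1 + Φ u z.2.1,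
        add_mem z.1.2.1 (XX_act Φ hue z.2.2.1)⟩ : XX Φ e)) ?_
    rintro ⟨⟨a, ha, haw⟩, ⟨b, hb, hbw⟩⟩ ⟨⟨a', ha', haw'⟩, ⟨b', hb', hbw'⟩⟩ h
    have h3 : a + Φ u b = a' + Φ u b' := congrArg Subtype.val h
    obtain ⟨x, hx⟩ : ∃ x, x = a - a' := ⟨_, rfl⟩
    have h4 : x = Φ u (b' - b) := by
      have h5 : a = a' + Φ u b' - Φ u b := by rw [← h3]; abel
      rw [hx, h5, map_sub]
      abel
    have h5 : Φ w x = x := by rw [hx, map_sub, haw, haw']
    have h6 : Φ (u * w * u⁻¹) x = x := by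
      have h7 : Φ w (b' - b) = b' - b := by rw [map_sub, hbw, hbw']
      rw [h4, ← act_mul, inv_mul_cancel_right, act_mul, h7]
    have h7 : Φ e x = x := by
      refine hgen (stab Φ x) h5 ?_
      have h8 : (u * w * u⁻¹)⁻¹ ∈ stab Φ x := inv_mem h6
      have h9 : w ∈ stab Φ x := h5
      -- `u * w⁻¹ * u⁻¹ * w`
      have h10 := inv_mem (mul_mem h8 h9)
      have e1 : ((u * w * u⁻¹)⁻¹ * w)⁻¹ = w⁻¹ * u * w * u⁻¹ := by group
      rw [e1] at h10
      exact h10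
    have h8 : x = 0 := XX_fix Φ hM hs hes (by rw [hx]; exact sub_mem ha ha') h7
    have h9 : a = a' := by rw [h8] at hx; exact (sub_eq_zero.1 hx.symm)
    have h10 : b = b' := by
      rw [h9] at h3
      exact act_inj Φ u (add_left_cancel h3)
    subst h9 h10
    rfl
  -- (3)
  have h3 : Nat.card (CX Φ e u) * (Nat.card (CX Φ e u) * Nat.card (CX Φ e u)) ≤
      Nat.card (XX Φ e) := by
    rw [← Nat.card_prod, ← Nat.card_prod]
    refine Nat.card_le_card_of_injective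
      (fun z : CX Φ e u × CX Φ e u × CX Φ e u => (⟨z.1.1 + (Φ u' z.2.1.1 + Φ u' (Φ u' z.2.2.1)),
        add_mem z.1.2.1 (add_mem (XX_act Φ hu'e z.2.1.2.1)
          (XX_act Φ hu'e (XX_act Φ hu'e z.2.2.2.1)))⟩ : XX Φ e)) ?_
    rintro ⟨⟨a, ha, hau⟩, ⟨b, hb, hbu⟩, ⟨c, hc, hcu⟩⟩
      ⟨⟨a', ha', hau'⟩, ⟨b', hb', hbu'⟩, ⟨c', hc', hcu'⟩⟩ h
    have h3 : a + (Φ u' b + Φ u' (Φ u' c)) = a' + (Φ u' b' + Φ u' (Φ u' c')) :=
      congrArg Subtype.val h
    obtain ⟨A, hA⟩ : ∃ A, A = a - a' := ⟨_, rfl⟩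
    obtain ⟨B, hB⟩ : ∃ B, B = Φ u' (b - b') := ⟨_, rfl⟩
    obtain ⟨C, hC⟩ : ∃ C, C = Φ u' (Φ u' (c - c')) := ⟨_, rfl⟩
    have hBX : B ∈ XX Φ e := by rw [hB]; exact XX_act Φ hu'e (sub_mem hb hb')
    have hCX : C ∈ XX Φ e := by rw [hC]; exact XX_act Φ hu'e (XX_act Φ hu'e (sub_mem hc hc'))
    have hABC : A + (B + C) = 0 := by
      have h4 : a = a' + (Φ u' b' + Φ u' (Φ u' c')) - (Φ u' b + Φ u' (Φ u' c)) := by
        rw [← h3]
        abel
      rw [hA, hB, hC, h4]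
      simp only [map_sub]
      abel
    have hAu : Φ u A = A := by rw [hA, map_sub, hau, hau']
    -- `u u' = u' u e⁻¹`
    have hE : ∀ x : M, Φ e⁻¹ (Φ e x) = x := fun x => by
      rw [← act_mul, inv_mul_cancel, act_one]
    have huu : u * u' = u' * u * e⁻¹ := by
      have e1 : u' * u = u * e * u' := by rw [← he]; group
      rw [e1, mul_assoc u e u', ← hu'e]
      group
    have hBu : Φ u B = Φ e⁻¹ B := by
      have h4 : Φ u (b - b') = b - b' := by rw [map_sub, hbu, hbu']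
      have e1 : u * u' = e⁻¹ * u' * u := by
        rw [huu]
        have h5 : Commute (u' * u) e⁻¹ := by
          have h6 : Commute (u' * u) e := by
            have h7 : Commute u' e := hu'e
            exact h7.mul_left hue
          exact h6.inv_right
        rw [h5.eq]
        group
      rw [hB, ← act_mul, e1, act_mul, act_mul, h4]
    have hCu : Φ u C = Φ e⁻¹ (Φ e⁻¹ C) := by
      have h4 : Φ u (c - c') = c - c' := by rw [map_sub, hcu, hcu']
      have h5 : Commute e⁻¹ u' := by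
        have h7 : Commute u' e := hu'e
        exact h7.inv_right.symm
      have h6 : Commute e⁻¹ u := by
        have h7 : Commute u e := hue
        exact h7.inv_right.symm
      have e1 : u * (u' * u') = e⁻¹ * e⁻¹ * (u' * u') * u := by
        calc u * (u' * u') = (u * u') * u' := by group
          _ = u' * u * e⁻¹ * u' := by rw [huu]
          _ = u' * (u * u') * e⁻¹ := by rw [mul_assoc (u' * u), h5.eq]; group
          _ = u' * (u' * u * e⁻¹) * e⁻¹ := by rw [huu]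
          _ = (u' * u' * u) * (e⁻¹ * e⁻¹) := by group
          _ = (e⁻¹ * e⁻¹) * (u' * u' * u) := by
            have h8 : Commute (e⁻¹ * e⁻¹) (u' * u' * u) :=
              (((h5.mul_right h5).mul_right h6)).mul_left (((h5.mul_right h5).mul_right h6))
            rw [h8.eq]
          _ = e⁻¹ * e⁻¹ * (u' * u') * u := by group
      rw [hC, ← act_mul Φ u' u', ← act_mul Φ u (u' * u'), e1, act_mul, h4, act_mul, act_mul]
    -- apply `u` to the relation
    have h4 : (Φ e⁻¹ B - B) + (Φ e⁻¹ (Φ e⁻¹ C) - C) = 0 := by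
      have h5 := congrArg (Φ u) hABC
      rw [map_add, map_add, hAu, hBu, hCu, map_zero] at h5
      have h6 : (Φ e⁻¹ B - B) + (Φ e⁻¹ (Φ e⁻¹ C) - C) =
          (A + (Φ e⁻¹ B + Φ e⁻¹ (Φ e⁻¹ C))) - (A + (B + C)) := by abel
      rw [h6, h5, hABC, sub_zero]
    have hes' : (e⁻¹) ^ s = 1 := by rw [inv_pow, hes, inv_one]
    have hfix : ∀ x ∈ XX Φ e, Φ e⁻¹ x = x → x = 0 := by
      intro x hx h
      refine XX_fix Φ hM hs hes hx ?_
      have := act_inv Φ h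
      rwa [inv_inv] at this
    have hinvX : ∀ x ∈ XX Φ e, Φ e⁻¹ x ∈ XX Φ e := fun x hx => XX_act Φ (by group) hx
    have h5 : B + (Φ e⁻¹ C + C) = 0 := by
      refine hfix _ (add_mem hBX (add_mem (hinvX C hCX) hCX)) ?_
      rw [← sub_eq_zero, ← h4, map_add, map_add]
      abel
    have h6 : Φ e⁻¹ B = B := by
      have h7 := congrArg (Φ u) h5
      rw [map_add, map_add, map_zero, ← act_mul Φ u e⁻¹ C] at h7
      have h8 : u * e⁻¹ = e⁻¹ * u := by
        have h9 : Commute u e := hue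
        exact h9.inv_right.eq
      rw [h8, act_mul Φ e⁻¹ u, hBu, hCu] at h7
      -- `e⁻¹ B + e⁻³ C + e⁻² C = 0`, so `B + e⁻² C + e⁻¹ C = 0`
      have h9 : Φ e⁻¹ (B + (Φ e⁻¹ (Φ e⁻¹ C) + Φ e⁻¹ C)) = 0 := by
        rw [map_add, map_add]
        exact h7
      have h10 : B + (Φ e⁻¹ (Φ e⁻¹ C) + Φ e⁻¹ C) = 0 := act_inj Φ e⁻¹ (by rw [h9, map_zero])
      have h11 : Φ e⁻¹ (B + (Φ e⁻¹ C + C)) = 0 := by rw [h5, map_zero]
      rw [map_add, map_add] at h11
      have h12 : Φ e⁻¹ B - B = (Φ e⁻¹ B + (Φ e⁻¹ (Φ e⁻¹ C) + Φ e⁻¹ C)) -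
          (B + (Φ e⁻¹ (Φ e⁻¹ C) + Φ e⁻¹ C)) := by abel
      rw [h11, h10, sub_zero] at h12
      exact sub_eq_zero.1 h12
    have hB0 : B = 0 := hfix B hBX h6
    have hC0 : C = 0 := by
      rw [hB0, zero_add] at h5
      refine hfix C hCX ?_
      -- `e⁻¹ C = - C`, `e⁻² C = C`
      have h7 : Φ e⁻¹ C = -C := eq_neg_of_add_eq_zero_left h5
      have h8 : Φ (e⁻¹ ^ 2) C = C := by
        rw [pow_two, act_mul, h7, map_neg, h7, neg_neg]
      obtain ⟨j, hj⟩ : ∃ j, s = 2 * j + 1 := ⟨s / 2, by omega⟩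
      have h9 : Φ (e⁻¹ ^ s) C = Φ e⁻¹ C := by
        rw [hj, pow_succ', pow_mul, act_mul, act_pow Φ h8]
      rw [← h9, hes', act_one]
    have hA0 : A = 0 := by
      rw [hB0, hC0, add_zero, add_zero] at hABC
      exact hABC
    have e1 : a = a' := sub_eq_zero.1 (by rw [← hA, hA0])
    have e2 : b = b' := by
      refine sub_eq_zero.1 (act_inj Φ u' ?_)
      rw [← hB, hB0, map_zero]
    have e3 : c = c' := by
      refine sub_eq_zero.1 (act_inj Φ u' (act_inj Φ u' ?_))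
      rw [← hC, hC0, map_zero, map_zero]
    subst e1 e2 e3
    rfl
  have h4 := numb Nat.card_pos h1 h2 h3
  intro v
  have h5 : Φ e v - v ∈ XX Φ e := (mem_XX Φ).2 ⟨v, rfl⟩
  have h6 := (Nat.card_eq_one_iff_unique.1 h4).1
  have h7 : (⟨Φ e v - v, h5⟩ : XX Φ e) = 0 := Subsingleton.elim _ _
  exact sub_eq_zero.1 (congrArg Subtype.val h7)

end Pool.Agent.V5helper30.OQ
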