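import Mathlib
import Pool.Agent.N6.PgD
import Pool.Agent.V5helper30.OQ.Ab
import Pool.Agent.V5helper30.OQ.Non

set_option autoImplicit false

/-!
# Complements and fixed vectors
-/

namespace Pool.Agent.V5helper30.OQ

open Pool.Agent.H32BU Pool.Agent.W629 Pool.Agent.TH69.Mtn Pool.Agent.TH69.Od Pool.Agent.TH69.Og
open Pool.Agent.TH69.Oh Pool.Agent.TH69.Ok Pool.Agent.TH69.Pq Pool.Agent.N6.Pf

theorem lemZ {F : Type} [Group F] {P Q : ℕ} (hPQ : Nat.Coprime P Q) (V : Subgroup F)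
    [hV : V.Normal] (hab : ∀ v ∈ V, ∀ w ∈ V, v * w = w * v) (hVP : ∀ v ∈ V, v ^ P = 1)
    {M : Type} [AddCommGroup M] (e : M → F) (Φ : F →* AddMonoid.End M)
    (einj : Function.Injective e) (eV : ∀ a : M, e a ∈ V) (eS : ∀ v ∈ V, ∃ a, e a = v)
    (eadd : ∀ a b : M, e (a + b) = e a * e b) (esub : ∀ a b : M, e (a - b) = e a * (e b)⁻¹)
    (eΦ : ∀ (g : F) (a : M), e (Φ g a) = g * e a * g⁻¹)
    {w : F} (U : Subgroup F) (hUf : Finite U) (hUQ : ∀ u ∈ U, u ^ Q = 1)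
    (hwU : ∀ u ∈ U, w * u * w⁻¹ ∈ U)
    (hgenc : ∀ S : Subgroup F, (∀ u ∈ U, w * u * w⁻¹ * u⁻¹ ∈ S) → U ≤ S)
    {u : F} (hu : u ∈ U) (hUle : U ≤ c2 w u)
    (hTT : ∀ v ∈ V, TT P Q (c2 w (v⁻¹ * u * v)) w) :
    ∀ v : M, ∃ y : M, Φ w y = y ∧ Φ u (y + Nat.card U • v) = y + Nat.card U • v := by
  classical
  intro v
  have hft : Fintype U := Fintype.ofFinite U
  obtain ⟨v0, hv0⟩ : ∃ v0, v0 = e v := ⟨_, rfl⟩
  have hv0V : v0 ∈ V := by rw [hv0]; exact eV v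
  obtain ⟨f, hf⟩ : ∃ f, f = v0⁻¹ * u * v0 := ⟨_, rfl⟩
  obtain ⟨A, B, hA, hB, hAQ, hBP, hwB⟩ := hTT v0 hv0V
  rw [← hf] at hA hB
  obtain ⟨H, hH⟩ : ∃ H, H = c2 w f := ⟨_, rfl⟩
  rw [← hH] at hA hB
  have hwH : w ∈ H := by rw [hH]; exact Subgroup.subset_closure (by simp)
  have hfH : f ∈ H := by rw [hH]; exact Subgroup.subset_closure (by simp)
  have hmkf : (f : F ⧸ V) = u := by
    have h1 : (v0 : F ⧸ V) = 1 := (QuotientGroup.eq_one_iff v0).2 hv0V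
    rw [hf, QuotientGroup.mk_mul, QuotientGroup.mk_mul, QuotientGroup.mk_inv, h1, inv_one, one_mul,
      mul_one]
  -- lifts
  have hlift : ∀ x ∈ c2 w u, ∃ h ∈ H, (h : F ⧸ V) = x := by
    intro x hx
    have h1 : (x : F ⧸ V) ∈ (c2 w u).map (QuotientGroup.mk' V) := ⟨x, hx, rfl⟩
    have h2 : (c2 w u).map (QuotientGroup.mk' V) = H.map (QuotientGroup.mk' V) := by
      rw [hH, map_c2', map_c2']
      change c2 (w : F ⧸ V) (u : F ⧸ V) = c2 (w : F ⧸ V) (f : F ⧸ V)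
      rw [hmkf]
    rw [h2] at h1
    obtain ⟨h, hh, hhx⟩ := h1
    exact ⟨h, hh, hhx⟩
  have hAV : ∀ x ∈ A, x ∈ V → x = 1 := fun x hx hxV =>
    W629.eq_one_of_coprime hPQ (hVP x hxV) (hAQ x hx)
  obtain ⟨a, -, ⟨a', ha'⟩, -, ha, -, -⟩ := crt hPQ
  have hK : ∀ g ∈ U, ∃ k : F, k ∈ A ∧ k ∈ H ∧ (k : F ⧸ V) = g := by
    have h1 : U ≤ ((A ⊓ H).map (QuotientGroup.mk' V)).comap (QuotientGroup.mk' V) := by
      refine hgenc _ fun u' hu' => ?_
      obtain ⟨h', hh', hhu⟩ := hlift u' (hUle hu')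
      obtain ⟨b, hb⟩ : ∃ b, b = w * h' * w⁻¹ * h'⁻¹ := ⟨_, rfl⟩
      have hbB : b ∈ B := by
        have h7 := mul_mem hwB (hB h' hh' _ (inv_mem hwB))
        have e1 : w * (h' * w⁻¹ * h'⁻¹) = b := by rw [hb]; group
        rwa [e1] at h7
      have hbH : b ∈ H := by
        rw [hb]
        exact mul_mem (mul_mem (mul_mem hwH hh') (inv_mem hwH)) (inv_mem hh')
      refine ⟨b ^ a, ⟨?_, pow_mem hbH a⟩, ?_⟩
      · rw [ha', pow_mul]
        exact pow_mem (hBP b hbB) a'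
      · have h2 : (b : F ⧸ V) = ((w * u' * w⁻¹ * u'⁻¹ : F) : F ⧸ V) := by
          rw [hb]
          simp only [QuotientGroup.mk_mul, QuotientGroup.mk_inv, hhu]
        change ((b ^ a : F) : F ⧸ V) = _
        rw [QuotientGroup.mk_pow, h2, ← QuotientGroup.mk_pow]
        change _ = ((w * u' * w⁻¹ * u'⁻¹ : F) : F ⧸ V)
        rw [ha _ (hUQ _ (mul_mem (hwU u' hu') (inv_mem hu')))]
    intro g hg
    obtain ⟨k, hk, hkg⟩ := h1 hg
    exact ⟨k, hk.1, hk.2, hkg⟩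
  choose! kk hkA hkH hkm using hK
  -- uniqueness
  have huniq : ∀ x ∈ A, ∀ y ∈ A, (x : F ⧸ V) = y → x = y := by
    intro x hx y hy h
    have h1 : x * y⁻¹ ∈ V := by
      rw [← QuotientGroup.eq_one_iff, QuotientGroup.mk_mul, QuotientGroup.mk_inv, h,
        mul_inv_cancel]
    exact mul_inv_eq_one.1 (hAV _ (mul_mem hx (inv_mem hy)) h1)
  have hkmul : ∀ g ∈ U, ∀ h ∈ U, kk (g * h) = kk g * kk h := by
    intro g hg h hh
    refine huniq _ (hkA _ (mul_mem hg hh)) _ (mul_mem (hkA g hg) (hkA h hh)) ?_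
    rw [hkm _ (mul_mem hg hh), QuotientGroup.mk_mul, QuotientGroup.mk_mul, hkm g hg, hkm h hh]
  have hkw : ∀ g ∈ U, kk (w * g * w⁻¹) = w * kk g * w⁻¹ := by
    intro g hg
    refine huniq _ (hkA _ (hwU g hg)) _ (hA w hwH _ (hkA g hg)) ?_
    rw [hkm _ (hwU g hg)]
    simp only [QuotientGroup.mk_mul, QuotientGroup.mk_inv, hkm g hg]
  have hku : kk u = f := by
    obtain ⟨κ, hκ⟩ : ∃ κ, κ = f * (kk u)⁻¹ := ⟨_, rfl⟩
    have hκV : κ ∈ V := by
      rw [← QuotientGroup.eq_one_iff, hκ, QuotientGroup.mk_mul, QuotientGroup.mk_inv, hmkf,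
        hkm u hu, mul_inv_cancel]
    have hκH : κ ∈ H := by rw [hκ]; exact mul_mem hfH (inv_mem (hkH u hu))
    have hcomm : κ * kk u * κ⁻¹ * (kk u)⁻¹ = 1 := by
      refine hAV _ (mul_mem (hA κ hκH _ (hkA u hu)) (inv_mem (hkA u hu))) ?_
      have h3 := mul_mem hκV (hV.conj_mem _ (inv_mem hκV) (kk u))
      have e1 : κ * (kk u * κ⁻¹ * (kk u)⁻¹) = κ * kk u * κ⁻¹ * (kk u)⁻¹ := by group
      rwa [e1] at h3
    have hc : Commute κ (kk u) := by
      rw [mul_inv_eq_one, mul_inv_eq_iff_eq_mul] at hcomm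
      exact hcomm
    have h1 : κ * kk u = f := by rw [hκ, inv_mul_cancel_right]
    have h2 : f ^ Q = 1 := by
      rw [hf]
      exact conj_pow_one' (hUQ u hu)
    rw [← h1, hc.mul_pow, hAQ _ (hkA u hu), mul_one] at h2
    have h3 : κ = 1 := W629.eq_one_of_coprime hPQ (hVP κ hκV) h2
    rw [← h1, h3, one_mul]
  have hδ : ∀ g ∈ U, ∃ d : M, e d = kk g * g⁻¹ := by
    intro g hg
    refine eS _ ?_
    rw [← QuotientGroup.eq_one_iff, QuotientGroup.mk_mul, QuotientGroup.mk_inv, hkm g hg,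
      mul_inv_cancel]
  choose! δ hδ' using hδ
  have hδmul : ∀ g ∈ U, ∀ h ∈ U, δ (g * h) = δ g + Φ g (δ h) := by
    intro g hg h hh
    apply einj
    rw [hδ' _ (mul_mem hg hh), eadd, eΦ, hδ' g hg, hδ' h hh, hkmul g hg h hh]
    group
  have hδw : ∀ g ∈ U, δ (w * g * w⁻¹) = Φ w (δ g) := by
    intro g hg
    apply einj
    rw [hδ' _ (hwU g hg), eΦ, hδ' g hg, hkw g hg]
    group
  have hδu : δ u = Φ u v - v := by
    apply einj
    rw [hδ' u hu, esub, eΦ, hku, hf, ← hv0]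
    have h1 : u * v0 * u⁻¹ ∈ V := hV.conj_mem v0 hv0V u
    rw [hab _ h1 _ (inv_mem hv0V)]
    group
  refine ⟨∑ g : U, δ g, ?_, ?_⟩
  · rw [map_sum]
    let c : U → U := fun g => ⟨w * g * w⁻¹, hwU g g.2⟩
    have hc : Function.Bijective c := by
      rw [← Finite.injective_iff_bijective]
      intro x y h
      have h1 : w * (x : F) * w⁻¹ = w * (y : F) * w⁻¹ := congrArg Subtype.val h
      exact Subtype.ext (mul_left_cancel (mul_right_cancel h1))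
    refine Fintype.sum_bijective c hc _ _ fun g => ?_
    exact (hδw g g.2).symm
  · have h1 : Φ u (∑ g : U, δ g) = (∑ g : U, δ g) - Nat.card U • δ u := by
      have h2 : ∑ g : U, Φ u (δ g) = ∑ g : U, (δ (u * g) - δ u) := by
        refine Finset.sum_congr rfl fun g _ => ?_
        rw [hδmul u hu g g.2]
        abel
      rw [map_sum, h2, Finset.sum_sub_distrib, Finset.sum_const, Finset.card_univ,
        Nat.card_eq_fintype_card]
      congr 1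
      exact Equiv.sum_comp (Equiv.mulLeft (⟨u, hu⟩ : U)) (fun g : U => δ g)
    rw [map_add, map_nsmul, h1, hδu, nsmul_sub]
    abel

end Pool.Agent.V5helper30.OQ
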