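import Mathlib
import Pool.Agent.V5helper30.OQ.LemZ

set_option autoImplicit false

/-!
# An induction principle for elements of `O_{p'}`
-/

namespace Pool.Agent.V5helper30.OQ

open Pool.Agent.H32BU Pool.Agent.W629 Pool.Agent.TH69.Mtn Pool.Agent.TH69.Od Pool.Agent.TH69.Og
open Pool.Agent.TH69.Oh Pool.Agent.TH69.Ok Pool.Agent.TH69.Pq Pool.Agent.N6.Pf

theorem ind_Rad {p α m : ℕ} (hp : p.Prime) (hpm' : Nat.Coprime p m)
    (R : (F : Type) → [Group F] → F → Prop)
    (hR : ∀ (F : Type) [Group F] (N : Subgroup F) [N.Normal] (z : F), R F z → R (F ⧸ N) (z : F ⧸ N))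
    (hbad : ∀ (F : Type) [Group F] [Finite F], (∀ x : F, x ^ (p ^ α * m) = 1) → ∀ z : F,
      R F z → ∀ V : Subgroup F, V.Normal → (∀ v ∈ V, ∀ w ∈ V, v * w = w * v) →
      (∀ v ∈ V, v ^ p = 1) → ∀ v ∈ V, z * v = v * z) :
    ∀ d : ℕ, ∀ (F : Type) [Group F] [Finite F], Nat.card F ≤ d →
      (∀ x : F, x ^ (p ^ α * m) = 1) → Group.IsSolvable F → ∀ z : F, z ^ m = 1 → R F z →
      z ∈ Rad m F := by
  have hab : Nat.Coprime (p ^ α) m := Nat.Coprime.pow_left _ hpm'
  have hcardq : ∀ (F : Type) [Group F] [Finite F] (N : Subgroup F), N ≠ ⊥ →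
      Nat.card (F ⧸ N) < Nat.card F := by
    intro F _ _ N hN
    have h1 := Subgroup.card_eq_card_quotient_mul_card_subgroup N
    have h2 : 1 < Nat.card N := by
      have : Nontrivial N := (Subgroup.nontrivial_iff_ne_bot N).2 hN
      exact Finite.one_lt_card
    have h3 : 0 < Nat.card (F ⧸ N) := Nat.card_pos
    rw [h1]
    exact lt_mul_of_one_lt_right h3 h2
  intro d
  induction d with
  | zero =>
    intro F _ _ hd
    have : 0 < Nat.card F := Nat.card_pos
    omega
  | succ d ih =>
    intro F _ _ hd hF hsol z hz hRz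
    by_cases hRq : Rad m F = ⊥
    swap
    · -- pass to the quotient
      have h1 := ih (F ⧸ Rad m F) (by have := hcardq F _ hRq; omega) (exp_quot hF _)
        (Group.isSolvable_of_surjective (QuotientGroup.mk'_surjective _)) z
        (by rw [← QuotientGroup.mk_pow, hz]; rfl) (hR F _ z hRz)
      rw [rad_quot hab.symm (fun x => by rw [mul_comm]; exact hF x), Subgroup.mem_bot,
        QuotientGroup.eq_one_iff] at h1
      exact h1
    rw [hRq, Subgroup.mem_bot]
    by_cases hRp : Rad (p ^ α) F = ⊥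
    · have h1 := hall_higman hab hF hsol hRp (x := z) (by
        intro e he
        rw [hRq, Subgroup.mem_bot] at he
        rw [he, mul_one, one_mul])
      rw [hRq, Subgroup.mem_bot] at h1
      exact h1
    obtain ⟨V, hV, hV1, hVR, hVc, hVp⟩ := exists_omega hp (Rad (p ^ α) F) inferInstance hRp
      fun x hx => rad_pow hx
    have hVab : ∀ v ∈ V, ∀ w ∈ V, v * w = w * v := fun v hv w hw => hVc v hv w (hVR hw)
    have hVP : ∀ v ∈ V, v ^ p ^ α = 1 := fun v hv => rad_pow (hVR hv)
    have h1 := ih (F ⧸ V) (by have := hcardq F _ hV1; omega) (exp_quot hF _)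
      (Group.isSolvable_of_surjective (QuotientGroup.mk'_surjective _)) z
      (by rw [← QuotientGroup.mk_pow, hz]; rfl) (hR F _ z hRz)
    let L : Subgroup F := (Rad m (F ⧸ V)).comap (QuotientGroup.mk' V)
    have hLn : L.Normal := inferInstance
    have hzL : z ∈ L := h1
    have hLQ : ∀ x ∈ L, x ^ m ∈ V := by
      intro x hx
      have h7 := rad_pow (show (x : F ⧸ V) ∈ Rad m (F ⧸ V) from hx)
      rw [← QuotientGroup.eq_one_iff, QuotientGroup.mk_pow]
      exact h7
    -- the centralizer of `V` in `L`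
    have hCV : ∀ x ∈ L, (∀ v ∈ V, x * v = v * x) → x ∈ V := by
      let C : Subgroup F :=
        { carrier := {x | x ∈ L ∧ ∀ v ∈ V, x * v = v * x}
          one_mem' := ⟨one_mem _, fun v _ => by rw [mul_one, one_mul]⟩
          mul_mem' := by
            rintro x y ⟨hx, hx2⟩ ⟨hy, hy2⟩
            refine ⟨mul_mem hx hy, fun v hv => ?_⟩
            rw [mul_assoc, hy2 v hv, ← mul_assoc, hx2 v hv, mul_assoc]
          inv_mem' := by
            rintro x ⟨hx, hx2⟩
            refine ⟨inv_mem hx, fun v hv => ?_⟩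
            have h1 := hx2 v hv
            rw [inv_mul_eq_iff_eq_mul, ← mul_assoc, h1]
            group }
      have hCn : C.Normal := by
        refine ⟨?_⟩
        rintro x ⟨hx, hx2⟩ g
        refine ⟨hLn.conj_mem x hx g, fun v hv => ?_⟩
        have h7 : g⁻¹ * v * g ∈ V := by
          have := hV.conj_mem v hv g⁻¹
          rwa [inv_inv] at this
        have h8 := hx2 _ h7
        calc g * x * g⁻¹ * v = g * (x * (g⁻¹ * v * g)) * g⁻¹ := by group
          _ = g * ((g⁻¹ * v * g) * x) * g⁻¹ := by rw [h8]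
          _ = v * (g * x * g⁻¹) := by group
      have hR0 : Rad m C = ⊥ := by
        refine rad_sub_bot C hCn fun N hN hNm => ?_
        have h9 := le_rad hab.symm (fun x => by rw [mul_comm]; exact hF x) N hNm
        rw [hRq] at h9
        exact le_bot_iff.1 h9
      intro x hx hx2
      have hxC : x ∈ C := ⟨hx, hx2⟩
      have hRV : ∀ e ∈ Rad (p ^ α) C, (e : F) ∈ V := by
        intro e he
        exact mem_of_pow hab (x := (e : F)) (congrArg Subtype.val (rad_pow he)) (hLQ e e.2.1)
      have h10 := hall_higman (G := C) (a := m) (b := p ^ α) hab.symm (fun x => Subtype.ext (by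
        rw [Subgroup.coe_pow, mul_comm]
        exact hF x)) inferInstance hR0 (x := ⟨x, hxC⟩) (by
        intro e he
        apply Subtype.ext
        exact hx2 e (hRV e he))
      exact hRV _ h10
    have h7 := hbad F hF z hRz V hV hVab hVp
    exact W629.eq_one_of_coprime hab (hVP z (hCV z hzL h7)) hz

end Pool.Agent.V5helper30.OQ
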