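import Mathlib
import Pool.Agent.V5helper30.OQ.Ind

set_option autoImplicit false

/-!
# Subgroups of `O_{p'}` detected by elements of prime order
-/

namespace Pool.Agent.V5helper30.OQ

open Pool.Agent.H32BU Pool.Agent.W629 Pool.Agent.TH69.Mtn Pool.Agent.TH69.Od Pool.Agent.TH69.Og
open Pool.Agent.TH69.Oh Pool.Agent.TH69.Ok Pool.Agent.TH69.Pq Pool.Agent.N6.Pf

/-- coprime action on a group -/
theorem comm_nc1 {F : Type} [Group F] {p Q : ℕ} (hpQ : Nat.Coprime p Q) {w u : F} (hw : w ^ p = 1)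
    (hcQ : (w * u * w⁻¹ * u⁻¹) ^ Q = 1) (h : w * u ≠ u * w) :
    w * (w * u * w⁻¹ * u⁻¹) ≠ (w * u * w⁻¹ * u⁻¹) * w := by
  intro h2
  apply h
  have h3 := comm_pow (x := w) (y := u) (c := w * u * w⁻¹ * u⁻¹) rfl h2 p
  rw [hw] at h3
  have h4 : (w * u * w⁻¹ * u⁻¹) ^ p = 1 := by
    rw [← h3]; group
  have h5 := W629.eq_one_of_coprime hpQ h4 hcQ
  rw [mul_inv_eq_one, mul_inv_eq_iff_eq_mul] at h5
  exact h5

/-- the configuration, abelian case -/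
def Rab (p α m s : ℕ) (F : Type) [Group F] (z : F) : Prop :=
  ∃ (w : F) (U : Subgroup F), Finite U ∧ z ∈ U ∧ (∀ u ∈ U, ∀ v ∈ U, u * v = v * u) ∧
    (∀ u ∈ U, u ^ s = 1) ∧ (∀ u ∈ U, w * u * w⁻¹ ∈ U) ∧
    (∀ B : Subgroup F, B ≤ U → (∀ b ∈ B, w * b * w⁻¹ ∈ B) → B = ⊥ ∨ B = U) ∧
    (∀ S : Subgroup F, (∀ u ∈ U, w * u * w⁻¹ * u⁻¹ ∈ S) → U ≤ S) ∧
    ∀ u ∈ U, ∀ g : F, TT (p ^ α) m (c2 w (g * u * g⁻¹)) w

theorem Rab.quot {p α m s : ℕ} {F : Type} [Group F] (N : Subgroup F) [N.Normal] {z : F}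
    (h : Rab p α m s F z) : Rab p α m s (F ⧸ N) (z : F ⧸ N) := by
  obtain ⟨w, U, h1, h2, h3, h4, h5, h6, h7, h8⟩ := h
  refine ⟨w, U.map (QuotientGroup.mk' N), ?_, ⟨z, h2, rfl⟩, ?_, ?_, ?_, ?_, ?_, ?_⟩
  · exact Finite.of_surjective _ ((QuotientGroup.mk' N).subgroupMap_surjective U)
  · rintro _ ⟨u, hu, rfl⟩ _ ⟨v, hv, rfl⟩
    rw [← map_mul, h3 u hu v hv, map_mul]
  · rintro _ ⟨u, hu, rfl⟩
    rw [← map_pow, h4 u hu, map_one]
  · rintro _ ⟨u, hu, rfl⟩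
    exact ⟨w * u * w⁻¹, h5 u hu, rfl⟩
  · intro B hB hBw
    rcases h6 ((B.comap (QuotientGroup.mk' N)) ⊓ U) inf_le_right
      (fun b hb => ⟨hBw _ hb.1, h5 b hb.2⟩) with h9 | h9
    · left
      rw [eq_bot_iff]
      intro x hx
      obtain ⟨u, hu, rfl⟩ := hB hx
      have h10 : u ∈ (B.comap (QuotientGroup.mk' N)) ⊓ U := ⟨hx, hu⟩
      rw [h9, Subgroup.mem_bot] at h10
      rw [h10, map_one]
      exact one_mem _
    · right
      refine le_antisymm hB ?_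
      rintro _ ⟨u, hu, rfl⟩
      rw [SetLike.mem_coe, ← h9] at hu
      exact hu.1
  · intro S hS
    rw [Subgroup.map_le_iff_le_comap]
    exact h7 _ fun u hu => hS _ ⟨u, hu, rfl⟩
  · rintro _ ⟨u, hu, rfl⟩ g
    obtain ⟨g, rfl⟩ := QuotientGroup.mk_surjective g
    have h9 := (h8 u hu g).map (QuotientGroup.mk' N)
    rw [map_c2'] at h9
    exact h9

theorem Rab.mem {p α m s : ℕ} (hp : p.Prime) (hα : 1 ≤ α) (hpm : Nat.Coprime p m) (hsm : s ∣ m)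
    {F : Type} [Group F] [Finite F] (hF : ∀ x : F, x ^ (p ^ α * m) = 1)
    (hsol : Group.IsSolvable F) {z : F} (h : Rab p α m s F z) : z ∈ Rad m F := by
  have hsp : Nat.Coprime s p := (Nat.Coprime.coprime_dvd_right hsm hpm).symm
  have hzm : z ^ m = 1 := by
    obtain ⟨w, U, h1, h2, h3, h4, h5, h6, h7, h8⟩ := h
    obtain ⟨c, rfl⟩ := hsm
    rw [pow_mul, h4 z h2, one_pow]
  refine ind_Rad hp hpm (fun F _ z => Rab p α m s F z) (fun F _ N _ z h => h.quot N) ?_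
    (Nat.card F) F le_rfl hF hsol z hzm h
  clear h hzm hsol hF
  intro F _ _ hF z h V hV hVab hVp
  obtain ⟨w, U, h1, h2, h3, h4, h5, h6, h7, h8⟩ := h
  have hUm : ∀ u ∈ U, u ^ m = 1 := by
    intro u hu
    obtain ⟨c, rfl⟩ := hsm
    rw [pow_mul, h4 u hu, one_pow]
  have hfpf : ∀ u ∈ U, u ≠ 1 → w * u ≠ u * w := by
    intro u hu hu1 huw
    let B : Subgroup F :=
      { carrier := {x | x ∈ U ∧ w * x = x * w}
        one_mem' := ⟨one_mem _, by rw [mul_one, one_mul]⟩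
        mul_mem' := by
          rintro x y ⟨hx, hx2⟩ ⟨hy, hy2⟩
          exact ⟨mul_mem hx hy, by rw [← mul_assoc, hx2, mul_assoc, hy2, mul_assoc]⟩
        inv_mem' := by
          rintro x ⟨hx, hx2⟩
          refine ⟨U.inv_mem hx, ?_⟩
          have h9 : Commute w x := hx2
          exact h9.inv_right }
    rcases h6 B (fun x hx => hx.1) (fun x hx => ⟨h5 x hx.1, by
      have : w * x * w⁻¹ = x := by rw [hx.2]; group
      rw [this]
      exact hx.2⟩) with h9 | h9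
    · have h10 : u ∈ B := ⟨hu, huw⟩
      rw [h9, Subgroup.mem_bot] at h10
      exact hu1 h10
    · have h10 := h7 ⊥ (fun x hx => by
        rw [← h9] at hx
        rw [Subgroup.mem_bot, hx.2]
        group) hu
      exact hu1 (Subgroup.mem_bot.1 h10)
  have hle : ∀ u ∈ U, u ≠ 1 → U ≤ c2 w u := by
    intro u hu hu1
    have hwm : w ∈ c2 w u := Subgroup.subset_closure (by simp)
    have hum : u ∈ c2 w u := Subgroup.subset_closure (by simp)
    rcases h6 (U ⊓ c2 w u) inf_le_left (fun b hb => ⟨h5 b hb.1,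
      (c2 w u).mul_mem ((c2 w u).mul_mem hwm hb.2) ((c2 w u).inv_mem hwm)⟩) with h9 | h9
    · have h10 : u ∈ U ⊓ c2 w u := ⟨hu, hum⟩
      rw [h9, Subgroup.mem_bot] at h10
      exact absurd h10 hu1
    · rw [← h9]
      exact inf_le_right
  obtain ⟨M, inst, e, Φ, einj, eV, eS, e0, eadd, esub, eΦ, ΦV, hMp⟩ := actp V hVab hVp
  have hVP : ∀ v ∈ V, v ^ p ^ α = 1 := by
    intro v hv
    obtain ⟨β, rfl⟩ : ∃ β, α = β + 1 := ⟨α - 1, by omega⟩
    rw [pow_succ', pow_mul, hVp v hv, one_pow]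
  have hN : Nat.Coprime (Nat.card U) p :=
    ((Nat.Prime.coprime_iff_not_dvd hp).2 (Pool.Agent.TH69.Og.not_dvd_card hp hpm h1 hUm)).symm
  have h9 := star_ab Φ hMp hsp hN (w := w) U h1 h3 h4 h5 h6 hfpf (fun u hu hu1 =>
    lemZ (Nat.Coprime.pow_left α hpm) V hVab hVP e Φ einj eV eS eadd esub eΦ U h1 hUm h5 h7 hu
      (hle u hu hu1) (fun v hv => by
        have := h8 u hu v⁻¹
        rwa [inv_inv] at this))
  intro v hv
  obtain ⟨a, rfl⟩ := eS v hv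
  have h10 := eΦ z a
  rw [h9 z h2] at h10
  rw [eq_mul_inv_iff_mul_eq] at h10
  exact h10.symm

/-- the configuration, nonabelian case -/
def Rno (p α m s : ℕ) (F : Type) [Group F] (z : F) : Prop :=
  ∃ (w u u' : F) (U : Subgroup F), Finite U ∧ u ∈ U ∧ z ∈ U ∧ (∀ x ∈ U, x ^ m = 1) ∧
    (∀ x ∈ U, w * x * w⁻¹ ∈ U) ∧
    (∀ B : Subgroup F, B ≤ U → (∀ b ∈ B, w * b * w⁻¹ ∈ B) → (∃ b ∈ B, w * b ≠ b * w) → B = U) ∧
    (∀ S : Subgroup F, (∀ x ∈ U, w * x * w⁻¹ * x⁻¹ ∈ S) → U ≤ S) ∧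
    w ^ p = 1 ∧ z ^ s = 1 ∧ u' * u * u'⁻¹ = u * z ∧ u * z = z * u ∧ u' * z = z * u' ∧
    w * z = z * w ∧ (z = 1 ∨ w * u ≠ u * w) ∧
    ∀ g : F, TT (p ^ α) m (c2 w (g * u * g⁻¹)) w

theorem Rno.quot {p α m s : ℕ} (hpm : Nat.Coprime p m) {F : Type} [Group F] (N : Subgroup F)
    [hN : N.Normal] {z : F} (h : Rno p α m s F z) : Rno p α m s (F ⧸ N) (z : F ⧸ N) := by
  obtain ⟨w, u, u', U, h1, hu, hz, h2, h3, h4, h5, h6, h7, h8, h9, h10, h11, h12, h13⟩ := h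
  have hm : ∀ x y : F, ((x * y : F) : F ⧸ N) = (x : F ⧸ N) * y := fun x y => rfl
  refine ⟨w, u, u', U.map (QuotientGroup.mk' N), ?_, ⟨u, hu, rfl⟩, ⟨z, hz, rfl⟩, ?_, ?_, ?_, ?_,
    ?_, ?_, ?_, ?_, ?_, ?_, ?_, ?_⟩
  · exact Finite.of_surjective _ ((QuotientGroup.mk' N).subgroupMap_surjective U)
  · rintro _ ⟨x, hx, rfl⟩
    rw [← map_pow, h2 x hx, map_one]
  · rintro _ ⟨x, hx, rfl⟩
    exact ⟨w * x * w⁻¹, h3 x hx, rfl⟩
  · rintro B hB hBw ⟨b, hb, hbw⟩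
    obtain ⟨b0, hb0, hb0b⟩ := hB hb
    have h14 := h4 ((B.comap (QuotientGroup.mk' N)) ⊓ U) inf_le_right
      (fun b hb => ⟨hBw _ hb.1, h3 b hb.2⟩) ⟨b0, ⟨by
        change (QuotientGroup.mk' N) b0 ∈ B
        rw [hb0b]
        exact hb, hb0⟩, fun h => hbw (by
        rw [← hb0b]
        change ((w * b0 : F) : F ⧸ N) = ((b0 * w : F) : F ⧸ N)
        rw [h])⟩
    refine le_antisymm hB ?_
    rintro _ ⟨x, hx, rfl⟩
    rw [SetLike.mem_coe, ← h14] at hx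
    exact hx.1
  · intro S hS
    rw [Subgroup.map_le_iff_le_comap]
    exact h5 _ fun x hx => hS _ ⟨x, hx, rfl⟩
  · rw [← QuotientGroup.mk_pow, h6]
    rfl
  · rw [← QuotientGroup.mk_pow, h7]
    rfl
  · change ((u' * u * u'⁻¹ : F) : F ⧸ N) = ((u * z : F) : F ⧸ N)
    rw [h8]
  · rw [← hm, ← hm, h9]
  · rw [← hm, ← hm, h10]
  · rw [← hm, ← hm, h11]
  · by_cases hwu : (w : F ⧸ N) * u = u * w
    swap
    · exact Or.inr hwu
    left
    rcases h12 with h12 | h12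
    · rw [h12]
      rfl
    have hcU : w * u * w⁻¹ * u⁻¹ ∈ U := U.mul_mem (h3 u hu) (U.inv_mem hu)
    have hcN : w * u * w⁻¹ * u⁻¹ ∈ N := by
      rw [← QuotientGroup.eq_one_iff]
      change (w : F ⧸ N) * u * (w : F ⧸ N)⁻¹ * (u : F ⧸ N)⁻¹ = 1
      rw [hwu]
      group
    have h14 := comm_nc1 hpm h6 (h2 _ hcU) h12
    have h15 := h4 (U ⊓ N) inf_le_left (fun b hb => ⟨h3 b hb.1, hN.conj_mem b hb.2 w⟩)
      ⟨_, ⟨hcU, hcN⟩, h14⟩
    rw [QuotientGroup.eq_one_iff]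
    rw [← h15] at hz
    exact hz.2
  · intro g
    obtain ⟨g, rfl⟩ := QuotientGroup.mk_surjective g
    have h14 := (h13 g).map (QuotientGroup.mk' N)
    rw [map_c2'] at h14
    exact h14

theorem Rno.mem {p α m s : ℕ} (hp : p.Prime) (hα : 1 ≤ α) (hpm : Nat.Coprime p m) (hsm : s ∣ m)
    (hs2 : ¬ 2 ∣ s)
    {F : Type} [Group F] [Finite F] (hF : ∀ x : F, x ^ (p ^ α * m) = 1)
    (hsol : Group.IsSolvable F) {z : F} (h : Rno p α m s F z) : z ∈ Rad m F := by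
  have hsp : Nat.Coprime s p := (Nat.Coprime.coprime_dvd_right hsm hpm).symm
  have hzm : z ^ m = 1 := by
    obtain ⟨w, u, u', U, h1, hu, hz, h2, -⟩ := h
    exact h2 z hz
  refine ind_Rad hp hpm (fun F _ z => Rno p α m s F z) (fun F _ N _ z h => h.quot hpm N) ?_
    (Nat.card F) F le_rfl hF hsol z hzm h
  clear h hzm hsol hF
  intro F _ _ hF z h V hV hVab hVp
  obtain ⟨w, u, u', U, h1, hu, hz, h2, h3, h4, h5, h6, h7, h8, h9, h10, h11, h12, h13⟩ := h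
  rcases h12 with h12 | h12
  · intro v _
    rw [h12, one_mul, mul_one]
  have hwm : w ∈ c2 w u := Subgroup.subset_closure (by simp)
  have hum : u ∈ c2 w u := Subgroup.subset_closure (by simp)
  have hle : U ≤ c2 w u := by
    have h14 := h4 (U ⊓ c2 w u) inf_le_left (fun b hb => ⟨h3 b hb.1,
      (c2 w u).mul_mem ((c2 w u).mul_mem hwm hb.2) ((c2 w u).inv_mem hwm)⟩) ⟨u, ⟨hu, hum⟩, h12⟩
    rw [← h14]
    exact inf_le_right
  obtain ⟨M, inst, e, Φ, einj, eV, eS, e0, eadd, esub, eΦ, ΦV, hMp⟩ := actp V hVab hVp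
  have hVP : ∀ v ∈ V, v ^ p ^ α = 1 := by
    intro v hv
    obtain ⟨β, rfl⟩ : ∃ β, α = β + 1 := ⟨α - 1, by omega⟩
    rw [pow_succ', pow_mul, hVp v hv, one_pow]
  have hN : Nat.Coprime (Nat.card U) p :=
    ((Nat.Prime.coprime_iff_not_dvd hp).2 (Pool.Agent.TH69.Og.not_dvd_card hp hpm h1 h2)).symm
  have hMf : Finite M := Finite.of_injective e einj
  have h14 := star_non Φ hMp hsp hs2 hN (w := w) h7 h8 h9 h10 h11 (fun K hwK hcK => ?_)
    (lemZ (Nat.Coprime.pow_left α hpm) V hVab hVP e Φ einj eV eS eadd esub eΦ U h1 h2 h3 h5 hu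
      hle (fun v hv => by
        have := h13 v⁻¹
        rwa [inv_inv] at this))
  · intro v hv
    obtain ⟨a, rfl⟩ := eS v hv
    have h15 := eΦ z a
    rw [h14 a] at h15
    rw [eq_mul_inv_iff_mul_eq] at h15
    exact h15.symm
  · have hinv := inv_conj hp.pos h6 h3
    have hcU : w⁻¹ * u * w * u⁻¹ ∈ U := U.mul_mem (hinv u hu) (U.inv_mem hu)
    have h15 : w * (w⁻¹ * u * w * u⁻¹) ≠ (w⁻¹ * u * w * u⁻¹) * w := by
      intro h16
      have h17 : w⁻¹ * u ≠ u * w⁻¹ := by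
        intro h18
        apply h12
        have h19 : Commute w⁻¹ u := h18
        have h20 := h19.inv_left
        rw [inv_inv] at h20
        exact h20.eq
      have h18 := comm_nc1 (w := w⁻¹) (u := u) hpm (by rw [inv_pow, h6, inv_one])
        (by rw [inv_inv]; exact h2 _ hcU) h17
      rw [inv_inv] at h18
      apply h18
      have h19 : Commute w (w⁻¹ * u * w * u⁻¹) := h16
      exact h19.inv_left.eq
    have h16 := h4 (U ⊓ K) inf_le_left (fun b hb => ⟨h3 b hb.1,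
      K.mul_mem (K.mul_mem hwK hb.2) (K.inv_mem hwK)⟩) ⟨_, ⟨hcU, hcK⟩, h15⟩
    rw [← h16] at hz
    exact hz.2

end Pool.Agent.V5helper30.OQ
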