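import Mathlib
import Pool.Agent.V5helper30.OQ.LemY

set_option autoImplicit false

/-!
# Minimal subgroups with a nontrivial coprime action
-/

namespace Pool.Agent.V5helper30.OQ

open Pool.Agent.H32BU Pool.Agent.W629 Pool.Agent.TH69.Mtn Pool.Agent.TH69.Od Pool.Agent.TH69.Og
open Pool.Agent.TH69.Oh Pool.Agent.TH69.Ok Pool.Agent.TH69.Pq Pool.Agent.N6.Pf
open scoped commutatorElement

variable {G : Type} [Group G] {n s p : ℕ} {w : G} {U : Subgroup G}

/-- the minimal subgroup is generated by commutators -/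
theorem genc (A : Arr n s w U) (hw : w ^ p = 1) (hco : Nat.Coprime p (qp s n)) (S : Subgroup G)
    (hS : ∀ u ∈ U, w * u * w⁻¹ * u⁻¹ ∈ S) : U ≤ S := by
  obtain ⟨D, hD⟩ : ∃ D, D = Subgroup.closure {x : G | ∃ u ∈ U, x = w * u * w⁻¹ * u⁻¹} := ⟨_, rfl⟩
  have hDU : D ≤ U := by
    rw [hD, Subgroup.closure_le]
    rintro _ ⟨u, hu, rfl⟩
    exact U.mul_mem (A.inv u hu) (U.inv_mem hu)
  have hDS : D ≤ S := by
    rw [hD, Subgroup.closure_le]
    rintro _ ⟨u, hu, rfl⟩
    exact hS u hu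
  obtain ⟨u, hu, huw⟩ := A.nc
  have h1 := A.min D hDU (by
    intro x hx
    have h2 : D ≤ D.comap (MulAut.conj w).toMonoidHom := by
      rw [hD, Subgroup.closure_le]
      rintro _ ⟨u, hu, rfl⟩
      refine Subgroup.subset_closure ⟨w * u * w⁻¹, A.inv u hu, ?_⟩
      change w * (w * u * w⁻¹ * u⁻¹) * w⁻¹ = _
      group
    exact h2 hx) ⟨_, by rw [hD]; exact Subgroup.subset_closure ⟨u, hu, rfl⟩,
      (A.comm_nc hw hco hu huw).2⟩
  rw [← h1]
  exact hDS

/-- the commutator subgroup of the minimal subgroup is central -/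
theorem comm_cent (A : Arr n s w U) (hs : s.Prime) (hw : w ^ p = 1)
    (hco : Nat.Coprime p (qp s n)) {a b : G} (ha : a ∈ U) (hb : b ∈ U) :
    w * (a * b * a⁻¹ * b⁻¹) = (a * b * a⁻¹ * b⁻¹) * w ∧
      ∀ u ∈ U, u * (a * b * a⁻¹ * b⁻¹) = (a * b * a⁻¹ * b⁻¹) * u := by
  have hUf := A.fin
  obtain ⟨D, hD⟩ : ∃ D, D = Subgroup.closure {x : G | ∃ a ∈ U, ∃ b ∈ U, x = a * b * a⁻¹ * b⁻¹} :=
    ⟨_, rfl⟩
  have hDU : D ≤ U := by
    rw [hD, Subgroup.closure_le]
    rintro _ ⟨a, ha, b, hb, rfl⟩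
    exact U.mul_mem (U.mul_mem (U.mul_mem ha hb) (U.inv_mem ha)) (U.inv_mem hb)
  have hmem : ∀ a ∈ U, ∀ b ∈ U, a * b * a⁻¹ * b⁻¹ ∈ D := by
    intro a ha b hb
    rw [hD]
    exact Subgroup.subset_closure ⟨a, ha, b, hb, rfl⟩
  have hDw : ∀ x ∈ D, w * x * w⁻¹ ∈ D := by
    intro x hx
    have h2 : D ≤ D.comap (MulAut.conj w).toMonoidHom := by
      rw [hD, Subgroup.closure_le]
      rintro _ ⟨a, ha, b, hb, rfl⟩
      refine Subgroup.subset_closure ⟨w * a * w⁻¹, A.inv a ha, w * b * w⁻¹, A.inv b hb, ?_⟩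
      change w * (a * b * a⁻¹ * b⁻¹) * w⁻¹ = _
      group
    exact h2 hx
  -- `w` centralises `D`
  have hwD : ∀ z ∈ D, w * z = z * w := by
    by_contra hcon
    push Not at hcon
    have h1 := A.min D hDU hDw hcon
    -- `U` is perfect
    have : Fact s.Prime := ⟨hs⟩
    have hPG : IsPGroup s U := fun x => ⟨n.factorization s, Subtype.ext (A.pow x x.2)⟩
    have hnt : Nontrivial U := by
      obtain ⟨u, hu, huw⟩ := A.nc
      refine ⟨⟨⟨u, hu⟩, 1, fun h => huw ?_⟩⟩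
      have h2 : u = 1 := congrArg Subtype.val h
      rw [h2, mul_one, one_mul]
    have hnil : Group.IsNilpotent U := hPG.isNilpotent
    have h3 : commutator U < ⊤ := by
      have hsol : Group.IsSolvable U := inferInstance
      exact Group.IsSolvable.commutator_lt_top_of_nontrivial U
    apply h3.ne
    rw [eq_top_iff]
    intro x _
    have h4 : U ≤ (commutator U).map U.subtype := by
      conv_lhs => rw [← h1]
      rw [hD, Subgroup.closure_le]
      rintro _ ⟨a, ha, b, hb, rfl⟩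
      refine ⟨⁅(⟨a, ha⟩ : U), ⟨b, hb⟩⁆, Subgroup.commutator_mem_commutator (Subgroup.mem_top _)
        (Subgroup.mem_top _), ?_⟩
      rfl
    obtain ⟨y, hy, hyx⟩ := h4 x.2
    have h5 : y = x := Subtype.ext hyx
    rw [← h5]
    exact hy
  have key : ∀ z ∈ D, ∀ u ∈ U, u * z = z * u := by
    intro z hz u hu
    have hzU := hDU hz
    have hS : U ≤ Subgroup.centralizer {z} := by
      refine genc A hw hco _ fun u hu => ?_
      rw [Subgroup.mem_centralizer_singleton_iff]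
      -- the commutator of `z` and `u⁻¹`
      have h1 := hwD _ (hmem z hzU u⁻¹ (U.inv_mem hu))
      have h2 := hwD z hz
      have h3 : w * (z * u⁻¹ * z⁻¹ * u⁻¹⁻¹) * w⁻¹ =
          z * (w * u⁻¹ * w⁻¹) * z⁻¹ * (w * u⁻¹ * w⁻¹)⁻¹ := by
        have h4 : w * z * w⁻¹ = z := by rw [h2]; group
        have h5 : w * z⁻¹ * w⁻¹ = z⁻¹ := by
          have := congrArg (fun t => t⁻¹) h4
          simp only [mul_inv_rev, inv_inv] at this
          rw [mul_assoc]
          exact this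
        calc w * (z * u⁻¹ * z⁻¹ * u⁻¹⁻¹) * w⁻¹
            = (w * z * w⁻¹) * (w * u⁻¹ * w⁻¹) * (w * z⁻¹ * w⁻¹) * (w * u⁻¹ * w⁻¹)⁻¹ := by group
          _ = _ := by rw [h4, h5]
      have h4 : w * (z * u⁻¹ * z⁻¹ * u⁻¹⁻¹) * w⁻¹ = z * u⁻¹ * z⁻¹ * u⁻¹⁻¹ := by rw [h1]; group
      rw [h4] at h3
      -- `c = w u w⁻¹ u⁻¹`
      obtain ⟨c, hc⟩ : ∃ c, c = w * u * w⁻¹ * u⁻¹ := ⟨_, rfl⟩
      have h5 : w * u⁻¹ * w⁻¹ = u⁻¹ * c⁻¹ := by rw [hc]; group
      rw [h5] at h3
      rw [← hc]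
      have h6 : z⁻¹ * u = c⁻¹ * z⁻¹ * (c * u) := by
        have h7 : z * u⁻¹ * z⁻¹ * u⁻¹⁻¹ = z * u⁻¹ * (z⁻¹ * u) := by group
        have h8 : z * (u⁻¹ * c⁻¹) * z⁻¹ * (u⁻¹ * c⁻¹)⁻¹ = z * u⁻¹ * (c⁻¹ * z⁻¹ * (c * u)) := by
          group
        rw [h7, h8] at h3
        exact mul_left_cancel h3
      have h7 : z⁻¹ = c⁻¹ * z⁻¹ * c := by
        have h8 := congrArg (fun t => t * u⁻¹) h6
        simp only [mul_assoc, mul_inv_cancel, mul_one] at h8
        rw [mul_assoc]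
        exact h8
      have h8 : c * z⁻¹ = z⁻¹ * c := by
        calc c * z⁻¹ = c * (c⁻¹ * z⁻¹ * c) := by rw [← h7]
          _ = z⁻¹ * c := by group
      have h9 : Commute c z⁻¹ := h8
      have h10 := h9.inv_right
      rw [inv_inv] at h10
      exact h10.eq
    exact Subgroup.mem_centralizer_singleton_iff.1 (hS hu)
  exact ⟨hwD _ (hmem a ha b hb), fun u hu => key _ (hmem a ha b hb) u hu⟩

/-- moving an element past a power, when the commutator is central -/
theorem pow_move {a b z : G} (h : b * a = z * a * b) (hzb : Commute z b) (k : ℕ) :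
    b ^ k * a = z ^ k * a * b ^ k := by
  induction k with
  | zero => simp
  | succ k ih =>
    rw [pow_succ', mul_assoc, ih]
    have h2 : b * (z ^ k * a * b ^ k) = z ^ k * (b * a) * b ^ k := by
      rw [← mul_assoc, ← mul_assoc, (hzb.symm.pow_right k).eq]
      simp only [mul_assoc]
    rw [h2, h]
    have h3 : z ^ k * (z * a * b) * b ^ k = (z ^ k * z) * a * (b * b ^ k) := by
      simp only [mul_assoc]
    rw [h3, ← pow_succ, ← pow_succ']

/-- powers of a product, when the commutator is central -/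
theorem class2_pow {a b z : G} (h : b * a = z * a * b) (hza : Commute z a) (hzb : Commute z b)
    (k : ℕ) : (a * b) ^ k = z ^ (k * (k - 1) / 2) * a ^ k * b ^ k := by
  have h1 : ∀ k : ℕ, b ^ k * a = z ^ k * a * b ^ k := pow_move h hzb
  induction k with
  | zero => simp
  | succ k ih =>
    rw [pow_succ, ih]
    have e1 : z ^ (k * (k - 1) / 2) * a ^ k * b ^ k * (a * b) =
        z ^ (k * (k - 1) / 2) * a ^ k * (b ^ k * a) * b := by simp only [mul_assoc]
    rw [e1, h1]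
    have e2 : z ^ (k * (k - 1) / 2) * a ^ k * (z ^ k * a * b ^ k) * b =
        z ^ (k * (k - 1) / 2) * (a ^ k * z ^ k) * a * (b ^ k * b) := by simp only [mul_assoc]
    rw [e2, ((hza.pow_pow k k).symm).eq, ← pow_succ]
    have e3 : z ^ (k * (k - 1) / 2) * (z ^ k * a ^ k) * a * b ^ (k + 1) =
        (z ^ (k * (k - 1) / 2) * z ^ k) * (a ^ k * a) * b ^ (k + 1) := by simp only [mul_assoc]
    rw [e3, ← pow_add, ← pow_succ]
    have e4 : k * (k - 1) / 2 + k = (k + 1) * (k + 1 - 1) / 2 := (Nat.triangle_succ k).symm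
    rw [e4]

/-- there is an element of order `s` which does not commute with `w` -/
theorem exists_order (A : Arr n s w U) (hs : s.Prime) (hs2 : s ≠ 2) (hw : w ^ p = 1)
    (hco : Nat.Coprime p (qp s n)) : ∃ u ∈ U, u ^ s = 1 ∧ w * u ≠ u * w := by
  classical
  have hex : ∃ j : ℕ, ∃ x ∈ U, x ^ s ^ j = 1 ∧ w * x ≠ x * w := by
    obtain ⟨u, hu, huw⟩ := A.nc
    exact ⟨n.factorization s, u, hu, A.pow u hu, huw⟩
  obtain ⟨x, hx, hxj, hxw⟩ := Nat.find_spec hex
  have hmin : ∀ j < Nat.find hex, ∀ y ∈ U, y ^ s ^ j = 1 → w * y = y * w := by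
    intro j hj y hy hyj
    by_contra hcon
    exact Nat.find_min hex hj ⟨y, hy, hyj, hcon⟩
  obtain ⟨j, hj⟩ : ∃ j, j = Nat.find hex := ⟨_, rfl⟩
  rw [← hj] at hxj hmin
  rcases j with _ | j
  · rw [pow_zero, pow_one] at hxj
    rw [hxj, mul_one, one_mul] at hxw
    exact absurd rfl hxw
  rcases j with _ | j
  · exact ⟨x, hx, by simpa using hxj, hxw⟩
  exfalso
  have h1 : w * x ^ s = x ^ s * w := by
    refine hmin (j + 1) (by omega) _ (pow_mem hx s) ?_
    rw [← pow_mul, ← pow_succ']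
    exact hxj
  obtain ⟨a, ha⟩ : ∃ a, a = w * x * w⁻¹ := ⟨_, rfl⟩
  obtain ⟨b, hb⟩ : ∃ b, b = x⁻¹ := ⟨_, rfl⟩
  obtain ⟨z, hz⟩ : ∃ z, z = b * a * b⁻¹ * a⁻¹ := ⟨_, rfl⟩
  have haU : a ∈ U := by rw [ha]; exact A.inv x hx
  have hbU : b ∈ U := by rw [hb]; exact U.inv_mem hx
  have hzc := (comm_cent A hs hw hco hbU haU).2
  rw [← hz] at hzc
  have hza : Commute z a := (hzc a haU).symm
  have hzb : Commute z b := (hzc b hbU).symm
  have hba : b * a = z * a * b := by
    have h2 : Commute z b := hzb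
    have h3 : z * (a * b) = z * a * b := by group
    have h4 : b * a = z * (a * b) := by rw [hz]; group
    rw [h4, h3]
  have has : a ^ s = x ^ s := by
    rw [ha, conj_pow, h1]
    group
  have hbs : b ^ s = (x ^ s)⁻¹ := by rw [hb, inv_pow]
  have hzs : z ^ s = 1 := by
    have h3 := pow_move hba hzb s
    have h4 : b ^ s * a = a * b ^ s := by
      rw [hbs, ← has]
      have h5 : Commute (a ^ s)⁻¹ a := ((Commute.refl a).pow_left s).inv_left
      exact h5.eq
    rw [h4, mul_assoc] at h3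
    have h5 : 1 * (a * b ^ s) = z ^ s * (a * b ^ s) := by rw [one_mul]; exact h3
    exact (mul_right_cancel h5).symm
  have hc : (a * b) ^ s = 1 := by
    rw [class2_pow hba hza hzb, has, hbs]
    have h2 : z ^ (s * (s - 1) / 2) = 1 := by
      obtain ⟨i, hi⟩ : ∃ i, s - 1 = 2 * i := by
        have h3 := hs.eq_two_or_odd.resolve_left hs2
        exact ⟨(s - 1) / 2, by omega⟩
      have h3 : s * (s - 1) / 2 = s * i := by
        rw [hi, show s * (2 * i) = 2 * (s * i) from by ring]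
        exact Nat.mul_div_cancel_left _ (by norm_num)
      rw [h3, pow_mul, hzs, one_pow]
    rw [h2, one_mul, mul_inv_cancel]
  have hab : a * b = w * x * w⁻¹ * x⁻¹ := by rw [ha, hb]
  have h2 := (A.comm_nc hw hco hx hxw)
  rw [← hab] at h2
  refine h2.2 (hmin (j + 1) (by omega) _ h2.1 ?_)
  rw [pow_succ', pow_mul, hc, one_pow]

end Pool.Agent.V5helper30.OQ
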