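import Mathlib
import Pool.Agent.V5helper30.OQ.Min

set_option autoImplicit false

/-!
# One generator of prime order, odd exponents: the infinite group
-/

namespace Pool.Agent.V5helper30.OQ

open Pool.Agent.H32BU Pool.Agent.W629 Pool.Agent.TH69.Mtn Pool.Agent.TH69.Od Pool.Agent.TH69.Og
open Pool.Agent.TH69.Oh Pool.Agent.TH69.Ok Pool.Agent.TH69.Pq Pool.Agent.N6.Pf

universe u

/-- elements of prime order different from `p` (and `1`) -/
def PO (p : ℕ) {G : Type u} [Group G] (y : G) : Prop := ∃ r : ℕ, r.Prime ∧ r ≠ p ∧ y ^ r = 1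

theorem PO.conj {p : ℕ} {G : Type u} [Group G] {y : G} (h : PO p y) (g : G) :
    PO p (g * y * g⁻¹) := by
  obtain ⟨r, h1, h2, h3⟩ := h
  exact ⟨r, h1, h2, conj_pow_one h3⟩

/-- the hypotheses on the group -/
structure Sq (n p α M : ℕ) (G : Type) [Group G] : Prop where
  hp : p.Prime
  hα : 1 ≤ α
  hpM : Nat.Coprime p M
  hn : p ^ α * M = n
  hodd : ¬ 2 ∣ n
  exp : ∀ x : G, x ^ n = 1
  f1 : ∀ x y : G, PO p y → Finite (c2 x y) ∧ Group.IsSolvable (c2 x y)
  rad : Rad M G = ⊥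

/-- the elements `w` of order `p` which lie in `O_{p',p}` of `⟨w, f⟩` for all `f` of prime order
different from `p` -/
def TP (p α M : ℕ) {G : Type} [Group G] (w : G) : Prop :=
  w ^ p = 1 ∧ ∀ f : G, PO p f → TT (p ^ α) M (c2 w f) w

variable {G : Type} [Group G] {n p α M : ℕ}

theorem Sq.hn0 (S : Sq n p α M G) : n ≠ 0 := by
  rintro rfl
  exact S.hodd (dvd_zero _)

theorem Sq.hM0 (S : Sq n p α M G) : M ≠ 0 := by
  rintro rfl
  exact S.hn0 (by rw [← S.hn, mul_zero])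

theorem Sq.hp2 (S : Sq n p α M G) : p ≠ 2 := by
  rintro rfl
  apply S.hodd
  rw [← S.hn]
  exact (dvd_pow_self 2 (by have := S.hα; omega)).trans (dvd_mul_right _ _)

theorem Sq.h2M (S : Sq n p α M G) : ¬ 2 ∣ M := fun h =>
  S.hodd (h.trans (Dvd.intro_left _ S.hn))

theorem Sq.cop (S : Sq n p α M G) : Nat.Coprime (p ^ α) M := Nat.Coprime.pow_left _ S.hpM

theorem Sq.hexp (S : Sq n p α M G) : ∀ x : G, x ^ (p ^ α * M) = 1 := by
  rw [S.hn]
  exact S.exp

theorem Sq.hexp' (S : Sq n p α M G) : ∀ x : G, x ^ (M * p ^ α) = 1 := by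
  rw [mul_comm, S.hn]
  exact S.exp

theorem Sq.f1' (S : Sq n p α M G) (x y : G) (h : PO p x) :
    Finite (c2 x y) ∧ Group.IsSolvable (c2 x y) := by
  rw [c2_comm]
  exact S.f1 y x h

theorem Sq.po_M (S : Sq n p α M G) {y : G} (h : PO p y) : y ^ M = 1 := by
  obtain ⟨s, h1, h2, h3⟩ := h
  refine W629.eq_one_of_coprime (a := s) (b := p ^ α) ?_ ?_ ?_
  · exact Nat.Coprime.pow_right _ ((Nat.coprime_primes h1 S.hp).2 h2)
  · rw [← pow_mul, mul_comm, pow_mul, h3, one_pow]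
  · rw [← pow_mul, S.hexp']

/-- powers of elements of maximal order -/
theorem tp_of (S : Sq n p α M G) {x : G} (hx : x ^ p ^ α = 1) :
    TP p α M (x ^ p ^ (α - 1)) := by
  have hp := S.hp
  have hα := S.hα
  obtain ⟨z, hzx⟩ : ∃ z, z = x ^ p ^ (α - 1) := ⟨_, rfl⟩
  rw [← hzx]
  refine ⟨?_, fun f hf => ?_⟩
  · rw [hzx, ← pow_mul, ← pow_succ, Nat.sub_add_cancel hα, hx]
  have hfs := S.f1 x f hf
  have hfin := hfs.1
  have hxm : x ∈ c2 x f := Subgroup.subset_closure (by simp)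
  have hfm : f ∈ c2 x f := Subgroup.subset_closure (by simp)
  have hex : ∀ q : ℕ, q.Prime → q ∣ M → ∀ μ, 1 ≤ μ → μ ≤ α → ∀ r, 1 ≤ r →
      q ^ r ≠ p ^ μ - 1 := by
    intro q hq hqM μ _ _ r _ h
    have hq2 : q ≠ 2 := by
      rintro rfl
      exact S.h2M hqM
    have h3 := (hp.odd_of_ne_two S.hp2).pow (n := μ)
    have h4 := (hq.odd_of_ne_two hq2).pow (n := r)
    have h5 : 0 < p ^ μ := h3.pos
    obtain ⟨c, hc⟩ := h3
    obtain ⟨d, hd⟩ := h4
    omega
  have h1 := hhBG hp ((Nat.Prime.coprime_iff_not_dvd hp).1 S.hpM) S.hM0 hα hex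
    (exp_sub S.hexp (c2 x f)) hfs.2 (x := ⟨x, hxm⟩) (Subtype.ext hx)
  have h2 := h1.map (c2 x f).subtype
  rw [← MonoidHom.range_eq_map, Subgroup.range_subtype] at h2
  have h3 : (c2 x f).subtype ((⟨x, hxm⟩ : c2 x f) ^ p ^ (α - 1)) = z := by
    rw [hzx]
    rfl
  rw [h3] at h2
  refine h2.mono ?_
  unfold c2
  rw [Subgroup.closure_le]
  rintro y (rfl | hy)
  · rw [hzx]
    exact pow_mem hxm _
  · rw [Set.mem_singleton_iff.1 hy]
    exact hfm

theorem TP.pow (S : Sq n p α M G) {w : G} (hw : TP p α M w) : w ^ p ^ α = 1 := by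
  obtain ⟨β, hβ⟩ : ∃ β, α = β + 1 := ⟨α - 1, by have := S.hα; omega⟩
  rw [hβ, pow_succ', pow_mul, hw.1, one_pow]

/-- a subgroup generated by an element of the radical and another element -/
theorem c2_rad {K : Type} [Group K] {P Q : ℕ} (hab : Nat.Coprime P Q)
    (hK : ∀ x : K, x ^ (P * Q) = 1) {e y : K} (he : e ∈ Rad P K) (hy : y ^ P = 1) {x : K}
    (hx : x ∈ c2 e y) : x ^ P = 1 := by
  have h3 : c2 e y ≤ (Subgroup.zpowers (y : K ⧸ Rad P K)).comap (QuotientGroup.mk' _) := by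
    unfold c2
    rw [Subgroup.closure_le]
    rintro a (rfl | ha)
    · rw [SetLike.mem_coe, Subgroup.mem_comap, QuotientGroup.mk'_apply,
        (QuotientGroup.eq_one_iff a).2 he]
      exact one_mem _
    · rw [Set.mem_singleton_iff.1 ha]
      exact Subgroup.mem_zpowers _
  obtain ⟨i, hi⟩ := Subgroup.mem_zpowers_iff.1 (h3 hx)
  have h6 : ((x : K) : K ⧸ Rad P K) ^ P = 1 := by
    change (QuotientGroup.mk' _ _) ^ P = 1
    rw [← hi, ← zpow_natCast, ← zpow_mul, mul_comm, zpow_mul, zpow_natCast,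
      ← QuotientGroup.mk_pow, hy]
    exact one_zpow i
  exact pow_of_mk hab hK _ (fun x hx => rad_pow hx) h6

theorem map_c2_sub {K : Subgroup G} (x y : K) : (c2 x y).map K.subtype = c2 (x : G) y := by
  unfold c2
  rw [MonoidHom.map_closure, Set.image_pair]
  rfl

/-- nice elements -/
theorem nice_ex (S : Sq n p α M G) {e : G} (hep : PO p e) (he1 : e ≠ 1) :
    ∃ g, Nice M e g := by
  classical
  have hab := S.cop.symm
  have he : e ^ M = 1 := S.po_M hep
  have hexp := S.hexp'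
  -- subgroups with `e` outside the radical
  have step : ∀ K : Subgroup G, Finite K → Group.IsSolvable K → e ∈ K →
      (∃ t ∈ K, t ^ M = 1 ∧ (e * t) ^ M ≠ 1) →
      ∃ k ∈ K, ¬ ∀ x ∈ c2 e (k * e * k⁻¹), x ^ M = 1 := by
    rintro K hK hKs heK ⟨t, htK, ht, het⟩
    by_contra hcon
    push Not at hcon
    have h1 := bsfG hab (exp_sub hexp K) hKs (e := ⟨e, heK⟩) (Subtype.ext he) (by
      intro k x hx
      apply Subtype.ext
      rw [Subgroup.coe_pow, Subgroup.coe_one]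
      refine hcon k k.2 x ?_
      have h2 : (c2 (⟨e, heK⟩ : K) (k * ⟨e, heK⟩ * k⁻¹)).map K.subtype =
          c2 e ((k : G) * e * (k : G)⁻¹) := by
        unfold c2
        rw [MonoidHom.map_closure, Set.image_pair]
        rfl
      rw [← h2]
      exact ⟨x, hx, rfl⟩)
    have h2 := rad_mul h1 (z := ⟨t, htK⟩) (Subtype.ext ht)
    exact het (congrArg Subtype.val h2)
  obtain ⟨t, ht, het⟩ : ∃ t : G, t ^ M = 1 ∧ (e * t) ^ M ≠ 1 := by
    by_contra hcon
    push Not at hcon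
    have h1 : e ∈ Rad M G := ⟨he, hcon⟩
    rw [S.rad] at h1
    exact he1 h1
  have hex : ∃ d, ∃ g : G, (¬ ∀ x ∈ c2 e (g * e * g⁻¹), x ^ M = 1) ∧
      Nat.card (c2 e (g * e * g⁻¹)) = d := by
    obtain ⟨k, -, hk⟩ := step (c2 e t) (S.f1' e t hep).1 (S.f1' e t hep).2
      (Subgroup.subset_closure (by simp)) ⟨t, Subgroup.subset_closure (by simp), ht, het⟩
    exact ⟨_, k, hk, rfl⟩
  obtain ⟨g, hg, hgd⟩ := Nat.find_spec hex
  have hmin := fun d (hd : d < Nat.find hex) => Nat.find_min hex hd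
  have hfin := (S.f1' e (g * e * g⁻¹) hep).1
  have hsol := (S.f1' e (g * e * g⁻¹) hep).2
  have heK : e ∈ c2 e (g * e * g⁻¹) := Subgroup.subset_closure (by simp)
  have hgK : g * e * g⁻¹ ∈ c2 e (g * e * g⁻¹) := Subgroup.subset_closure (by simp)
  have h1 : ∃ t ∈ c2 e (g * e * g⁻¹), t ^ M = 1 ∧ (e * t) ^ M ≠ 1 := by
    by_contra hcon
    push Not at hcon
    -- `e` is in the radical of `K`
    have h2 : (⟨e, heK⟩ : c2 e (g * e * g⁻¹)) ∈ Rad M (c2 e (g * e * g⁻¹)) :=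
      ⟨Subtype.ext he, fun z hz => Subtype.ext (hcon z z.2 (congrArg Subtype.val hz))⟩
    apply hg
    intro x hx
    have h3 : (⟨x, hx⟩ : c2 e (g * e * g⁻¹)) ∈ c2 (⟨e, heK⟩ : c2 e (g * e * g⁻¹))
        (⟨g * e * g⁻¹, hgK⟩ : c2 e (g * e * g⁻¹)) := by
      have h4 := map_c2_sub (⟨e, heK⟩ : c2 e (g * e * g⁻¹)) ⟨g * e * g⁻¹, hgK⟩
      have h5 : x ∈ (c2 (⟨e, heK⟩ : c2 e (g * e * g⁻¹)) ⟨g * e * g⁻¹, hgK⟩).map
          (c2 e (g * e * g⁻¹)).subtype := by
        rw [h4]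
        exact hx
      obtain ⟨y, hy, hyx⟩ := h5
      have h6 : y = ⟨x, hx⟩ := Subtype.ext hyx
      rw [← h6]
      exact hy
    have h7 := c2_rad hab (exp_sub hexp _) h2 (y := ⟨g * e * g⁻¹, hgK⟩)
      (Subtype.ext (conj_pow_one he)) h3
    exact congrArg Subtype.val h7
  obtain ⟨k, hkK, hk⟩ := step _ hfin hsol heK h1
  have hle : c2 e (k * e * k⁻¹) ≤ c2 e (g * e * g⁻¹) :=
    c2_le heK (mul_mem (mul_mem hkK heK) (inv_mem hkK))
  have heq : c2 e (k * e * k⁻¹) = c2 e (g * e * g⁻¹) := by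
    refine Subgroup.eq_of_le_of_card_ge hle ?_
    by_contra hlt
    push Not at hlt
    rw [hgd] at hlt
    exact hmin _ hlt ⟨k, hk, rfl⟩
  exact ⟨k, by rw [heq]; exact hkK, hk⟩

/-- `O_{p'}` of the centraliser of a `p`-element -/
theorem t3 (S : Sq n p α M G) {g e : G} (hep : PO p e) (hg : g ^ p ^ α = 1)
    (he : e ∈ Tw.RK M (Subgroup.centralizer {g})) : e ∈ Rad M G := by
  have hMQ := S.cop.symm
  have heM := Tw.RK_pow he
  have hge : Commute g e := (Tw.mem_cent.1 (Tw.RK_le he)).symm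
  have key : ∀ k : G, ∀ x ∈ c2 e (k * e * k⁻¹), x ^ M = 1 := by
    intro k x hx
    obtain ⟨hK, hs⟩ := S.f1 (g * e) (k * e * k⁻¹) (hep.conj k)
    obtain ⟨K, hKd⟩ : ∃ K, K = c2 (g * e) (k * e * k⁻¹) := ⟨_, rfl⟩
    have h1 : g * e ∈ K := by rw [hKd]; exact Subgroup.subset_closure (by simp)
    have hyK : k * e * k⁻¹ ∈ K := by rw [hKd]; exact Subgroup.subset_closure (by simp)
    rw [← hKd] at hK hs
    obtain ⟨hgK, heK⟩ := mem_of_mul hge.eq hg heM hMQ.symm K h1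
    have h2 : (⟨e, heK⟩ : K) ∈ Rad M K := by
      refine t3q_fin S.hp S.hpM.symm (exp_sub S.hexp' K) hs (g := ⟨g, hgK⟩)
        (Subtype.ext hg) (Subtype.ext (by simpa using heM)) (Subtype.ext hge.eq) ?_
      rintro ⟨x, hx⟩ hxg
      have hxg' : Commute x g := congrArg Subtype.val hxg
      exact Subtype.ext (by simpa using Tw.cent_comm he hxg')
    have h4 := map_c2_sub (⟨e, heK⟩ : K) ⟨k * e * k⁻¹, hyK⟩
    rw [← h4] at hx
    obtain ⟨y, hy, rfl⟩ := hx
    have h7 := c2_rad hMQ (exp_sub S.hexp' _) h2 (y := ⟨k * e * k⁻¹, hyK⟩)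
      (Subtype.ext (conj_pow_one heM)) hy
    exact congrArg Subtype.val h7
  refine ⟨heM, fun t ht => ?_⟩
  obtain ⟨hE, hEs⟩ := S.f1' e t hep
  have heE : e ∈ c2 e t := Subgroup.subset_closure (by simp)
  have htE : t ∈ c2 e t := Subgroup.subset_closure (by simp)
  have h1 := bsfG hMQ (exp_sub S.hexp' (c2 e t)) hEs (e := ⟨e, heE⟩) (Subtype.ext heM) (by
    intro k x hx
    apply Subtype.ext
    rw [Subgroup.coe_pow, Subgroup.coe_one]
    refine key k x ?_
    have h2 : (c2 (⟨e, heE⟩ : c2 e t) (k * ⟨e, heE⟩ * k⁻¹)).map (c2 e t).subtype =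
        c2 e ((k : G) * e * (k : G)⁻¹) := by
      unfold c2
      rw [MonoidHom.map_closure, Set.image_pair]
      rfl
    rw [← h2]
    exact ⟨x, hx, rfl⟩)
  have h2 := rad_mul h1 (z := ⟨t, htE⟩) (Subtype.ext ht)
  exact congrArg Subtype.val h2

/-- an element of prime order commuting with `w` which lies in `O_{p'}` of all finite soluble
subgroups containing `w` and `y` -/
theorem t4 (S : Sq n p α M G) {w y τ : G} (hw : w ^ p ^ α = 1) (hy : PO p y) (hτp : PO p τ)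
    (hτ : Commute τ w)
    (hall : ∀ K : Subgroup G, Finite K → Group.IsSolvable K → w ∈ K → y ∈ K → τ ∈ Tw.RK M K) :
    τ ∈ Rad M G := by
  refine t3 S hτp hw ?_
  refine Tw.mem_RK.2 ⟨Tw.mem_cent.2 hτ, ?_, ?_⟩
  · have := Tw.RK_pow (hall (c2 w y) (S.f1 _ _ hy).1 (S.f1 _ _ hy).2
      (Subgroup.subset_closure (by simp)) (Subgroup.subset_closure (by simp)))
    exact Subtype.ext (by simpa using this)
  · rintro ⟨z, hz⟩ hzM
    have hzM' : z ^ M = 1 := by simpa using congrArg Subtype.val hzM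
    have hzs : Commute w z := (Tw.mem_cent.1 hz).symm
    have h1 : w * z ∈ c2 (w * z) y := Subgroup.subset_closure (by simp)
    have hyK : y ∈ c2 (w * z) y := Subgroup.subset_closure (by simp)
    obtain ⟨hsK, hzK⟩ := mem_of_mul hzs.eq hw hzM' S.cop _ h1
    have := Tw.RK_mul (hall _ (S.f1 _ _ hy).1 (S.f1 _ _ hy).2 hsK hyK) hzK hzM'
    exact Subtype.ext (by simpa using this)

end Pool.Agent.V5helper30.OQ
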