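import Mathlib
import Pool.Agent.V5helper30.OQ.Grp

set_option autoImplicit false

/-!
# One generator of prime order, odd exponents: minimal subgroups
-/

namespace Pool.Agent.V5helper30.OQ

open Pool.Agent.H32BU Pool.Agent.W629 Pool.Agent.TH69.Mtn Pool.Agent.TH69.Od Pool.Agent.TH69.Og
open Pool.Agent.TH69.Oh Pool.Agent.TH69.Ok Pool.Agent.TH69.Pq Pool.Agent.N6.Pf

variable {G : Type} [Group G] {n p α M s : ℕ} {w : G} {U : Subgroup G}

/-- `s ≠ 2` and `s ∣ M` for a minimal `s`-subgroup -/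
theorem arr_basic (S : Sq n p α M G) (hs : s.Prime) (hsp : s ≠ p) (A : Arr n s w U) :
    s ≠ 2 ∧ s ∣ M ∧ qp s n ∣ M ∧ Nat.Coprime p (qp s n) := by
  have h1 : s ∣ n := by
    by_contra hsn
    obtain ⟨u, hu, huw⟩ := A.nc
    have h1 : qp s n = 1 := by
      unfold qp
      rw [Nat.factorization_eq_zero_of_not_dvd hsn, pow_zero]
    have h3 := A.pow u hu
    rw [h1, pow_one] at h3
    rw [h3, mul_one, one_mul] at huw
    exact huw rfl
  have h2 : s ∣ M := by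
    have h3 : s ∣ p ^ α * M := by rw [S.hn]; exact h1
    rcases (Nat.Prime.dvd_mul hs).1 h3 with h4 | h4
    · exact absurd ((Nat.prime_dvd_prime_iff_eq hs S.hp).1 (hs.dvd_of_dvd_pow h4)) hsp
    · exact h4
  refine ⟨?_, h2, qp_dvd_M S.hp hs hsp S.hn, ?_⟩
  · rintro rfl
    exact S.hodd h1
  · exact Nat.Coprime.pow_right _ ((Nat.coprime_primes S.hp hs).2 hsp.symm)

theorem tt_sub {K : Subgroup G} {P Q : ℕ} (w u g : K)
    (h : TT P Q (c2 (w : G) ((g : G) * (u : G) * (g : G)⁻¹)) (w : G)) :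
    TT P Q (c2 w (g * u * g⁻¹)) w := by
  refine TT.comap K.subtype K.subtype_injective ?_
  rw [map_c2_sub]
  exact h

/-- the nonabelian case does not occur -/
theorem arr_ab (S : Sq n p α M G) (hs : s.Prime) (hsp : s ≠ p) (hw : TP p α M w)
    (A : Arr n s w U) : ∀ a ∈ U, ∀ b ∈ U, a * b = b * a := by
  obtain ⟨hs2, hsM, hqsM, hco⟩ := arr_basic S hs hsp A
  obtain ⟨u, hu, hus, huw⟩ := exists_order A hs hs2 hw.1 hco
  by_contra hcon
  -- `u` is not central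
  have h1 : ∃ u' ∈ U, u' * u ≠ u * u' := by
    by_contra h
    push Not at h
    let Z : Subgroup G :=
      { carrier := {z | z ∈ U ∧ ∀ x ∈ U, x * z = z * x}
        one_mem' := ⟨U.one_mem, fun x _ => by rw [mul_one, one_mul]⟩
        mul_mem' := by
          rintro a b ⟨ha, ha2⟩ ⟨hb, hb2⟩
          refine ⟨U.mul_mem ha hb, fun x hx => ?_⟩
          rw [← mul_assoc, ha2 x hx, mul_assoc, hb2 x hx, mul_assoc]
        inv_mem' := by
          rintro a ⟨ha, ha2⟩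
          refine ⟨U.inv_mem ha, fun x hx => ?_⟩
          have h3 : Commute x a := ha2 x hx
          exact h3.inv_right.eq }
    have hwinv := inv_conj S.hp.pos hw.1 A.inv
    have h3 := A.min Z (fun z hz => hz.1) (fun z hz => ⟨A.inv z hz.1, fun x hx => by
      have h5 := hz.2 _ (hwinv x hx)
      calc x * (w * z * w⁻¹) = w * ((w⁻¹ * x * w) * z) * w⁻¹ := by group
        _ = w * (z * (w⁻¹ * x * w)) * w⁻¹ := by rw [h5]
        _ = w * z * w⁻¹ * x := by group⟩) ⟨u, ⟨hu, h⟩, huw⟩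
    apply hcon
    intro a ha b hb
    rw [← h3] at hb
    exact hb.2 a ha
  obtain ⟨u', hu', huu'⟩ := h1
  obtain ⟨e, he⟩ : ∃ e, e = u⁻¹ * u' * u⁻¹⁻¹ * u'⁻¹ := ⟨_, rfl⟩
  obtain ⟨hwe, hcent⟩ := comm_cent A hs hw.1 hco (U.inv_mem hu) hu'
  rw [← he] at hwe hcent
  have he' : u' * u * u'⁻¹ = u * e := by rw [he]; group
  have heU : e ∈ U := by
    rw [he]
    exact U.mul_mem (U.mul_mem (U.mul_mem (U.inv_mem hu) hu') (U.inv_mem (U.inv_mem hu)))
      (U.inv_mem hu')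
  have he1 : e ≠ 1 := by
    rintro rfl
    apply huu'
    rw [mul_one, mul_inv_eq_iff_eq_mul] at he'
    exact he'
  have hue := hcent u hu
  have hes : e ^ s = 1 := by
    have h3 : (u * e) ^ s = e ^ s := by
      have h4 : Commute u e := hue
      rw [h4.mul_pow, hus, one_mul]
    rw [← h3, ← he', conj_pow, hus]
    group
  have hwp := hw.pow S
  have h5 : e ∈ Rad M G := by
    refine t4 S (y := u) hwp ⟨s, hs, hsp, hus⟩ ⟨s, hs, hsp, hes⟩
      (show Commute e w from hwe.symm) fun K hK hKs hwK huK => ?_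
    have hUK := A.gen K hwK hu huK huw
    have hUf := A.fin
    refine Tw.mem_RK.2 ⟨hUK heU, ?_⟩
    refine Rno.mem S.hp S.hα S.hpM hsM (hs.eq_two_or_odd'.resolve_left hs2).not_two_dvd_nat
      (exp_sub S.hexp K) hKs ⟨⟨w, hwK⟩, ⟨u, huK⟩, ⟨u', hUK hu'⟩, U.subgroupOf K, ?_, hu, heU, ?_, ?_,
      ?_, ?_, Subtype.ext hw.1, Subtype.ext hes, Subtype.ext he', Subtype.ext hue,
      Subtype.ext (hcent u' hu'), Subtype.ext hwe, Or.inr fun h => huw (congrArg Subtype.val h),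
      ?_⟩
    · exact inferInstance
    · intro x hx
      exact Subtype.ext (by
        rw [Subgroup.coe_pow]
        exact arr_powM hqsM A hx)
    · intro x hx
      exact A.inv x hx
    · rintro B hB hBw ⟨b, hb, hbw⟩
      have h6 := A.min (B.map K.subtype) (by
        rintro _ ⟨x, hx, rfl⟩
        exact hB hx) (by
        rintro _ ⟨x, hx, rfl⟩
        exact ⟨_, hBw x hx, rfl⟩) ⟨b, ⟨b, hb, rfl⟩, fun h => hbw (Subtype.ext h)⟩
      refine le_antisymm hB ?_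
      intro x hx
      have h7 : (x : G) ∈ B.map K.subtype := by rw [h6]; exact hx
      obtain ⟨y, hy, hyx⟩ := h7
      have h8 : y = x := Subtype.ext hyx
      rw [← h8]
      exact hy
    · intro T hT x hx
      have h6 := genc A hw.1 hco (T.map K.subtype) (fun y hy =>
        ⟨_, hT ⟨y, hUK hy⟩ hy, rfl⟩) hx
      obtain ⟨y, hy, hyx⟩ := h6
      have h8 : y = x := Subtype.ext hyx
      rw [← h8]
      exact hy
    · intro g
      exact tt_sub ⟨w, hwK⟩ ⟨u, huK⟩ g (hw.2 (g * u * (g : G)⁻¹) (PO.conj ⟨s, hs, hsp, hus⟩ g))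
  rw [S.rad, Subgroup.mem_bot] at h5
  exact he1 h5

/-- structure of the minimal subgroups -/
theorem arr_str (S : Sq n p α M G) (hs : s.Prime) (hsp : s ≠ p) (hw : TP p α M w)
    (A : Arr n s w U) : (∀ u ∈ U, ∀ v ∈ U, u * v = v * u) ∧ (∀ u ∈ U, u ^ s = 1) ∧
      (∀ u ∈ U, u ≠ 1 → w * u ≠ u * w) ∧
      (∀ V : Subgroup G, V ≤ U → (∀ u ∈ V, w * u * w⁻¹ ∈ V) → V = ⊥ ∨ V = U) := by
  obtain ⟨hs2, hsM, hqsM, hco⟩ := arr_basic S hs hsp A
  obtain ⟨u, hu, hus, huw⟩ := exists_order A hs hs2 hw.1 hco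
  have hab := arr_ab S hs hsp hw A
  have hpow : ∀ u ∈ U, u ^ s = 1 := by
    let B : Subgroup G :=
      { carrier := {z | z ∈ U ∧ z ^ s = 1}
        one_mem' := ⟨U.one_mem, one_pow _⟩
        mul_mem' := by
          rintro a b ⟨ha, ha2⟩ ⟨hb, hb2⟩
          refine ⟨U.mul_mem ha hb, ?_⟩
          have h3 : Commute a b := hab a ha b hb
          rw [h3.mul_pow, ha2, hb2, one_mul]
        inv_mem' := by
          rintro a ⟨ha, ha2⟩
          exact ⟨U.inv_mem ha, by rw [inv_pow, ha2, inv_one]⟩ }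
    have h3 := A.min B (fun z hz => hz.1) (fun z hz => ⟨A.inv z hz.1, conj_pow_one hz.2⟩)
      ⟨u, ⟨hu, hus⟩, huw⟩
    intro x hx
    rw [← h3] at hx
    exact hx.2
  have hfpf : ∀ u ∈ U, u ≠ 1 → w * u ≠ u * w := by
    intro x hx hx1 hxw
    let B : Subgroup G :=
      { carrier := {z | ∃ v ∈ U, z = w * v * w⁻¹ * v⁻¹}
        one_mem' := ⟨1, U.one_mem, by group⟩
        mul_mem' := by
          rintro _ _ ⟨a, ha, rfl⟩ ⟨b, hb, rfl⟩
          refine ⟨a * b, U.mul_mem ha hb, ?_⟩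
          have h3 := hab _ (U.inv_mem ha) _ (A.inv b hb)
          have h4 := hab _ (U.inv_mem ha) _ (U.inv_mem hb)
          calc w * a * w⁻¹ * a⁻¹ * (w * b * w⁻¹ * b⁻¹)
              = w * a * w⁻¹ * (a⁻¹ * (w * b * w⁻¹)) * b⁻¹ := by group
            _ = w * a * w⁻¹ * (w * b * w⁻¹) * (a⁻¹ * b⁻¹) := by rw [h3]; group
            _ = w * (a * b) * w⁻¹ * (a * b)⁻¹ := by rw [h4]; group
        inv_mem' := by
          rintro _ ⟨a, ha, rfl⟩
          refine ⟨a⁻¹, U.inv_mem ha, ?_⟩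
          have h3 := hab _ ha _ (U.inv_mem (A.inv a ha))
          calc (w * a * w⁻¹ * a⁻¹)⁻¹ = a * (w * a * w⁻¹)⁻¹ := by group
            _ = (w * a * w⁻¹)⁻¹ * a := h3
            _ = w * a⁻¹ * w⁻¹ * a⁻¹⁻¹ := by group }
    have h3 := genc A hw.1 hco B (fun v hv => ⟨v, hv, rfl⟩) hx
    obtain ⟨v, hv, rfl⟩ := h3
    by_cases hvw : w * v = v * w
    · exact hx1 (by rw [hvw]; group)
    · exact (A.comm_nc hw.1 hco hv hvw).2 hxw
  refine ⟨hab, hpow, hfpf, fun V hV hVw => ?_⟩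
  by_cases hV1 : V = ⊥
  · exact Or.inl hV1
  right
  obtain ⟨e, he⟩ := (Subgroup.ne_bot_iff_exists_ne_one).1 hV1
  exact A.min V hV hVw ⟨e, e.2, hfpf e (hV e.2) fun h => he (Subtype.ext h)⟩

/-- the minimal subgroup lies in `O_{p'}` of finite soluble subgroups -/
theorem lemY (S : Sq n p α M G) (hs : s.Prime) (hsp : s ≠ p) (hw : TP p α M w)
    (A : Arr n s w U) {K : Subgroup G} (hK : Finite K) (hKs : Group.IsSolvable K) (hwK : w ∈ K)
    (hUK : U ≤ K) : U ≤ Tw.RK M K := by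
  obtain ⟨hs2, hsM, hqsM, hco⟩ := arr_basic S hs hsp A
  obtain ⟨h1, h2, h3, h4⟩ := arr_str S hs hsp hw A
  intro z hz
  refine Tw.mem_RK.2 ⟨hUK hz, ?_⟩
  refine Rab.mem (s := s) S.hp S.hα S.hpM hsM (exp_sub S.hexp K) hKs
    ⟨⟨w, hwK⟩, U.subgroupOf K, inferInstance, hz, ?_, ?_, ?_, ?_, ?_, ?_⟩
  · intro u hu v hv
    exact Subtype.ext (h1 u hu v hv)
  · intro u hu
    exact Subtype.ext (by
      rw [Subgroup.coe_pow]
      exact h2 u hu)
  · intro x hx
    exact A.inv x hx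
  · intro B hB hBw
    rcases h4 (B.map K.subtype) (by
        rintro _ ⟨x, hx, rfl⟩
        exact hB hx) (by
        rintro _ ⟨x, hx, rfl⟩
        exact ⟨_, hBw x hx, rfl⟩) with h6 | h6
    · left
      exact (Subgroup.map_eq_bot_iff_of_injective B K.subtype_injective).1 h6
    · right
      refine le_antisymm hB ?_
      intro x hx
      have h7 : (x : G) ∈ B.map K.subtype := by rw [h6]; exact hx
      obtain ⟨y, hy, hyx⟩ := h7
      have h8 : y = x := Subtype.ext hyx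
      rw [← h8]
      exact hy
  · intro T hT x hx
    have h6 := genc A hw.1 hco (T.map K.subtype) (fun y hy =>
      ⟨_, hT ⟨y, hUK hy⟩ hy, rfl⟩) hx
    obtain ⟨y, hy, hyx⟩ := h6
    have h8 : y = x := Subtype.ext hyx
    rw [← h8]
    exact hy
  · intro u hu g
    exact tt_sub ⟨w, hwK⟩ u g (hw.2 (g * u * (g : G)⁻¹) (PO.conj ⟨s, hs, hsp, h2 u hu⟩ g))

theorem arr_ne (A : Arr n s w U) : ∃ u ∈ U, u ≠ 1 := by
  obtain ⟨u, hu, huw⟩ := A.nc
  refine ⟨u, hu, ?_⟩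
  rintro rfl
  rw [mul_one, one_mul] at huw
  exact huw rfl

/-- no eigenvectors -/
theorem no_eig (S : Sq n p α M G) (hs : s.Prime) (hsp : s ≠ p) (hw : TP p α M w)
    (A : Arr n s w U) {v : G} (hv : v ∈ U) (hv1 : v ≠ 1) {l : ℕ} (hl : w * v * w⁻¹ = v ^ l) :
    False := by
  obtain ⟨hs2, hsM, hqsM, hco⟩ := arr_basic S hs hsp A
  obtain ⟨h1, h2, h3, h4⟩ := arr_str S hs hsp hw A
  have hvp := h2 v hv
  have hvP : v ^ M = 1 := arr_powM hqsM A hv
  have hvPO : PO p v := ⟨s, hs, hsp, hvp⟩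
  obtain ⟨g, hg⟩ := nice_ex S hvPO hv1
  obtain ⟨m, hm⟩ : ∃ m : ℕ, (w * v * w⁻¹) ^ m = v := by
    rw [hl]
    apply pow_gen hs hvp
    intro h
    rw [h, mul_inv_eq_one] at hl
    apply hv1
    exact (left_eq_mul.1 hl.symm)
  obtain ⟨m1, m2, m3, m4, m5⟩ := gens S.cop.symm (x := v) (k := 1) (g := g) (c := w) hvP
    (one_pow _) (by rw [mul_one, one_mul]) ⟨m, hm⟩ hg.1
  have hv1p : PO p (v * 1) := by
    rw [mul_one]
    exact hvPO
  obtain ⟨hfin, hsol⟩ := S.f1' (v * 1) (g * w) hv1p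
  have hUE := A.gen _ m4 hv m1 (h3 v hv hv1)
  have h5 := lemY S hs hsp hw A hfin hsol m4 hUE hv
  refine nice_false hg (A := Tw.RK M (c2 (v * 1) (g * w))) (fun x hx => Tw.RK_pow hx)
    (fun x hx => Tw.RK_conj hx m3) h5

/-- no minimal `s`-subgroups if `p ∣ s - 1` -/
theorem no_arr (S : Sq n p α M G) (hs : s.Prime) (hsp : s ≠ p) (hps : p ∣ s - 1)
    (hw : TP p α M w) (A : Arr n s w U) : False := by
  have := A.fin
  obtain ⟨h1, h2, h3, h4⟩ := arr_str S hs hsp hw A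
  obtain ⟨v, hv, hv1, l, hl⟩ := eig hs hps U h1 h2 hw.1 A.inv (arr_ne A)
  exact no_eig S hs hsp hw A hv hv1 hl

end Pool.Agent.V5helper30.OQ
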