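import Mathlib
import Pool.Agent.V5helper30.OQ.Str

set_option autoImplicit false

/-!
# One generator of prime order, odd exponents: elements acting trivially on `p'`-subgroups
-/

namespace Pool.Agent.V5helper30.OQ

open Pool.Agent.H32BU Pool.Agent.W629 Pool.Agent.TH69.Mtn Pool.Agent.TH69.Od Pool.Agent.TH69.Og
open Pool.Agent.TH69.Oh Pool.Agent.TH69.Ok Pool.Agent.TH69.Pq Pool.Agent.N6.Pf

variable {G : Type} [Group G] {n p α M s : ℕ} {w : G} {U : Subgroup G}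

theorem rad_of_TT (S : Sq n p α M G) (hw : w ^ p ^ α = 1)
    (hno : ∀ s : ℕ, s.Prime → s ≠ p → ∀ U : Subgroup G, ¬ Arr n s w U) {E : Subgroup G}
    (hfin : Finite E) (hwE : w ∈ E) (hTT : TT (p ^ α) M E w) : (⟨w, hwE⟩ : E) ∈ Rad (p ^ α) E := by
  have hp := S.hp
  have hqM := S.hpM
  have hab := S.cop
  obtain ⟨A, B, h1, h2, h3, h4, h5⟩ := hTT
  have hf' : Finite (A ⊓ E : Subgroup G) :=
    Finite.of_injective (Subgroup.inclusion inf_le_right) (Subgroup.inclusion_injective _)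
  have hcA : ∀ a ∈ A, a ∈ E → w * a = a * w := by
    intro a ha haE
    refine cov (g := w) (k := α) hp (L := A ⊓ E) hf' hw
      (Pool.Agent.TH69.Og.not_dvd_card hp hqM hf' fun x hx => h3 x hx.1)
      (fun u hu => ⟨h1 w hwE u hu.1, E.mul_mem (E.mul_mem hwE hu.2) (E.inv_mem hwE)⟩) ?_ a
      ⟨ha, haE⟩
    intro s hs hsq T hT hTs hwT
    have hTf : Finite T := Finite.of_injective (Subgroup.inclusion hT)
      (Subgroup.inclusion_injective _)
    exact cent_of_no_arr S.hn0 S.exp hs (hno s hs hsq) hTf hTs hwT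
  let C : Subgroup E :=
    { carrier := {x | (x : G) ∈ B ∧ ∀ a ∈ A, a ∈ E → (x : G) * a = a * x}
      one_mem' := ⟨one_mem _, fun v _ _ => by rw [Subgroup.coe_one, mul_one, one_mul]⟩
      mul_mem' := by
        rintro x y ⟨hx, hx2⟩ ⟨hy, hy2⟩
        refine ⟨mul_mem hx hy, fun v hv hvE => ?_⟩
        rw [Subgroup.coe_mul, mul_assoc, hy2 v hv hvE, ← mul_assoc, hx2 v hv hvE, mul_assoc]
      inv_mem' := by
        rintro x ⟨hx, hx2⟩
        refine ⟨inv_mem hx, fun v hv hvE => ?_⟩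
        have h1 := hx2 v hv hvE
        rw [Subgroup.coe_inv, inv_mul_eq_iff_eq_mul, ← mul_assoc, h1]
        group }
  have hCn : C.Normal := by
    refine ⟨?_⟩
    rintro x ⟨hx, hx2⟩ g
    refine ⟨h2 g g.2 x hx, fun v hv hvE => ?_⟩
    have h7 : (g : G)⁻¹ * v * g ∈ A := by
      have := h1 (g : G)⁻¹ (inv_mem g.2) v hv
      rwa [inv_inv] at this
    have h9 : (g : G)⁻¹ * v * g ∈ E := E.mul_mem (E.mul_mem (E.inv_mem g.2) hvE) g.2
    have h8 := hx2 _ h7 h9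
    change (g : G) * x * (g : G)⁻¹ * v = v * ((g : G) * x * (g : G)⁻¹)
    calc (g : G) * x * (g : G)⁻¹ * v = g * (x * ((g : G)⁻¹ * v * g)) * (g : G)⁻¹ := by group
      _ = g * (((g : G)⁻¹ * v * g) * x) * (g : G)⁻¹ := by rw [h8]
      _ = v * (g * x * (g : G)⁻¹) := by group
  exact nilpG hp hab hqM (exp_sub S.hexp E) C hCn (by
    intro x hx y hy hyp
    have h10 : (y : G) ∈ A := mem_of_pow hab.symm (congrArg Subtype.val hyp) (h4 y hy.1)
    exact Subtype.ext (hx.2 y h10 y.2)) (x := ⟨w, hwE⟩) ⟨h5, hcA⟩ (Subtype.ext hw)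

theorem arr_odd {H : Type} [Group H] {n s : ℕ} {w : H} {U : Subgroup H} (h2 : ¬ 2 ∣ n)
    (A : Arr n s w U) : s ≠ 2 := by
  rintro rfl
  obtain ⟨u, hu, huw⟩ := A.nc
  have h1 : qp 2 n = 1 := by
    unfold qp
    rw [Nat.factorization_eq_zero_of_not_dvd h2, pow_zero]
  have h3 := A.pow u hu
  rw [h1, pow_one] at h3
  rw [h3, mul_one, one_mul] at huw
  exact huw rfl

/-- in a finite soluble subgroup, `w` lies in the largest normal `p`-subgroup -/
theorem rad_fin (S : Sq n p α M G) (hw : TP p α M w)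
    (hno : ∀ s : ℕ, s.Prime → s ≠ p → ∀ U : Subgroup G, ¬ Arr n s w U) {E : Subgroup G}
    (hfin : Finite E) (hsol : Group.IsSolvable E) (hwE : w ∈ E) :
    (⟨w, hwE⟩ : E) ∈ Rad (p ^ α) E := by
  have hp := S.hp
  have hab := S.cop
  have hwp := hw.pow S
  obtain ⟨w', hw'⟩ : ∃ w' : E, w' = ⟨w, hwE⟩ := ⟨_, rfl⟩
  have hw'w : (w' : G) = w := by rw [hw']
  rw [← hw']
  have hw'p : w' ^ p = 1 := by
    rw [hw']
    exact Subtype.ext hw.1
  refine Tw.mem_rad_of hab (exp_sub S.hexp E) hsol (by rw [hw']; exact Subtype.ext hwp) ?_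
  intro x hx
  have hwq : ((w' : E) : E ⧸ Rad (p ^ α) E) ^ p = 1 := by
    rw [← QuotientGroup.mk_pow, hw'p]
    rfl
  have hfL : Finite (Rad M (E ⧸ Rad (p ^ α) E)) := inferInstance
  refine cov (g := ((w' : E) : E ⧸ Rad (p ^ α) E)) (k := 1) hp (L := Rad M (E ⧸ Rad (p ^ α) E))
    hfL (by rw [pow_one]; exact hwq)
    (Pool.Agent.TH69.Og.not_dvd_card hp S.hpM hfL fun x hx => rad_pow hx)
    (fun u hu => (rad_normal M).conj_mem u hu _) ?_ x hx
  intro r hr hrp T hT hTr hwT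
  by_contra hcon
  push Not at hcon
  have hTf : Finite T := inferInstance
  obtain ⟨U, hUT, A⟩ := arr_exists (n := n) (s := r) (h := ((w' : E) : E ⧸ Rad (p ^ α) E)) T hTf
    (fun u hu => pow_qp S.hn0 (exp_quot (exp_sub S.exp E) _ u) hr (hTr u hu)) hwT hcon
  have hr2 := arr_odd S.hodd A
  have hco : Nat.Coprime p (qp r n) := Nat.Coprime.pow_right _ ((Nat.coprime_primes hp hr).2 hrp.symm)
  obtain ⟨u, hu, hur, huw⟩ := exists_order A hr hr2 hwq hco
  obtain ⟨f, hf, hfu⟩ := lift_pp (QuotientGroup.mk' (Rad (p ^ α) E))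
    (QuotientGroup.mk'_surjective _) S.hn0 (exp_sub S.exp E) hr (k := 1) (by rw [pow_one]; exact hur)
  have hfr : f ^ r = 1 := by
    have h1 : f ^ r ∈ Rad (p ^ α) E := by
      rw [← QuotientGroup.eq_one_iff, QuotientGroup.mk_pow]
      change ((QuotientGroup.mk' (Rad (p ^ α) E)) f) ^ r = 1
      rw [hfu, hur]
    have h2 := rad_pow h1
    refine W629.eq_one_of_coprime (a := p ^ α) (b := qp r n) ?_ h2 ?_
    · exact Nat.Coprime.pow_left _ hco
    · rw [← pow_mul, mul_comm, pow_mul, hf, one_pow]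
  have hfPO : PO p (f : G) := ⟨r, hr, hrp, congrArg Subtype.val hfr⟩
  have hTT := hw.2 f hfPO
  have hle : c2 w (f : G) ≤ E := c2_le hwE f.2
  have hHf : Finite (c2 w (f : G)) := Finite.of_injective (Subgroup.inclusion hle)
    (Subgroup.inclusion_injective _)
  have hwH : w ∈ c2 w (f : G) := Subgroup.subset_closure (by simp)
  have hfH : (f : G) ∈ c2 w (f : G) := Subgroup.subset_closure (by simp)
  have h1 := rad_of_TT S hwp hno hHf hwH hTT
  have h2 : (⟨w, hwH⟩ : c2 w (f : G)) * ((⟨f, hfH⟩ : c2 w (f : G)) * (⟨w, hwH⟩ : c2 w (f : G))⁻¹ *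
      (⟨f, hfH⟩ : c2 w (f : G))⁻¹) ∈ Rad (p ^ α) (c2 w (f : G)) :=
    mul_mem h1 ((rad_normal (p ^ α)).conj_mem _ (inv_mem h1) _)
  have h3 : (w * ((f : G) * w⁻¹ * (f : G)⁻¹)) ^ p ^ α = 1 := congrArg Subtype.val (rad_pow h2)
  have h4 : (w' * (f * w'⁻¹ * f⁻¹)) ^ p ^ α = 1 := by
    apply Subtype.ext
    rw [Subgroup.coe_pow, Subgroup.coe_mul, Subgroup.coe_mul, Subgroup.coe_mul, Subgroup.coe_inv,
      Subgroup.coe_inv, hw'w]
    exact h3
  have h5 : ((w' : E) : E ⧸ Rad (p ^ α) E) * (u * ((w' : E) : E ⧸ Rad (p ^ α) E)⁻¹ * u⁻¹) = 1 := by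
    refine W629.eq_one_of_coprime (a := p ^ α) (b := qp r n) (Nat.Coprime.pow_left _ hco) ?_ ?_
    · have h6 : ((w' * (f * w'⁻¹ * f⁻¹) : E) : E ⧸ Rad (p ^ α) E) ^ p ^ α = 1 := by
        rw [← QuotientGroup.mk_pow, h4]
        rfl
      rw [← hfu]
      exact h6
    · have h6 : ((w' : E) : E ⧸ Rad (p ^ α) E) * (u * ((w' : E) : E ⧸ Rad (p ^ α) E)⁻¹ * u⁻¹) =
          ((w' : E) : E ⧸ Rad (p ^ α) E) * u * ((w' : E) : E ⧸ Rad (p ^ α) E)⁻¹ * u⁻¹ := by group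
      rw [h6]
      exact A.pow _ (U.mul_mem (A.inv u hu) (U.inv_mem hu))
  apply huw
  have h6 : ((w' : E) : E ⧸ Rad (p ^ α) E) * (u * ((w' : E) : E ⧸ Rad (p ^ α) E)⁻¹ * u⁻¹) =
      ((w' : E) : E ⧸ Rad (p ^ α) E) * u * ((w' : E) : E ⧸ Rad (p ^ α) E)⁻¹ * u⁻¹ := by group
  rw [h6, mul_inv_eq_one, mul_inv_eq_iff_eq_mul] at h5
  exact h5

/-- if `w` acts trivially on the finite `s`-subgroups, then `w` is in the radical -/
theorem rad_of (S : Sq n p α M G) (hRP : Rad (p ^ α) G = ⊥) (hw : TP p α M w)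
    (f2 : ∀ t : G, t ^ p ^ α = 1 → Finite (c2 w t) ∧ Group.IsSolvable (c2 w t))
    (hno : ∀ s : ℕ, s.Prime → s ≠ p → ∀ U : Subgroup G, ¬ Arr n s w U) : w = 1 := by
  by_contra hw1
  have hwp := hw.pow S
  obtain ⟨t, ht, hwt⟩ : ∃ t : G, t ^ p ^ α = 1 ∧ (w * t) ^ p ^ α ≠ 1 := by
    by_contra hcon
    push Not at hcon
    have h1 : w ∈ Rad (p ^ α) G := ⟨hwp, hcon⟩
    rw [hRP] at h1
    exact hw1 h1
  obtain ⟨hf, hs⟩ := f2 t ht
  have hwE : w ∈ c2 w t := Subgroup.subset_closure (by simp)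
  have htE : t ∈ c2 w t := Subgroup.subset_closure (by simp)
  have h1 := rad_fin S hw hno hf hs hwE
  have h7 := rad_mul h1 (z := ⟨t, htE⟩) (Subtype.ext ht)
  exact hwt (congrArg Subtype.val h7)

end Pool.Agent.V5helper30.OQ
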