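import Mathlib
import Pool.Agent.V5helper30.OQ.Rd

set_option autoImplicit false

/-!
# One generator of prime order, odd exponents: primes whose square does not divide the exponent
-/

namespace Pool.Agent.V5helper30.OQ

open Pool.Agent.H32BU Pool.Agent.W629 Pool.Agent.TH69.Mtn Pool.Agent.TH69.Od Pool.Agent.TH69.Og
open Pool.Agent.TH69.Oh Pool.Agent.TH69.Ok Pool.Agent.TH69.Pq Pool.Agent.N6.Pf

variable {G : Type} [Group G] {n p α M r m : ℕ} {w : G} {U : Subgroup G}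

/-- no minimal `r`-subgroups if `r ^ 2` does not divide `n` -/
theorem no_arr_small (S : Sq n p α M G) (hr : r.Prime) (hrp : r ≠ p)
    (hrm : Nat.Coprime r m) (hss : ∀ x : G, x ^ r = 1 → SG r m x)
    (f3 : ∀ x : G, Finite (c2 w x) ∧ Group.IsSolvable (c2 w x))
    (hw : TP p α M w) (A : Arr n r w U) : False := by
  have hp := S.hp
  have hn := S.hn
  obtain ⟨-, -, hs, hco⟩ := arr_basic S hr hrp A
  obtain ⟨hUab, hUpow, hfpf, -⟩ := arr_str S hr hrp hw A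
  have hrQ : Nat.Coprime r (p ^ α) :=
    Nat.Coprime.pow_right _ ((Nat.coprime_primes hr hp).2 hrp)
  have hwp := hw.pow S
  obtain ⟨u, hu, hu1⟩ : ∃ u ∈ U, u ≠ 1 := by
    obtain ⟨u, hu, huw⟩ := A.nc
    refine ⟨u, hu, ?_⟩
    rintro rfl
    rw [mul_one, one_mul] at huw
    exact huw rfl
  obtain ⟨u', hu'⟩ : ∃ u', u' = w * u * w⁻¹ := ⟨_, rfl⟩
  have hu'U : u' ∈ U := by rw [hu']; exact A.inv u hu
  have hur := hUpow u hu
  have hu'r := hUpow u' hu'U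
  have hv1 : ∀ i : ℕ, u' * u ^ i ≠ 1 := by
    intro i h
    refine no_eig S hr hrp hw A hu hu1 (l := i * (r - 1)) ?_
    rw [← hu', mul_eq_one_iff_eq_inv.1 h, inv_eq_iff_mul_eq_one, ← pow_add]
    have e : i + i * (r - 1) = r * i := by
      have := hr.pos
      obtain ⟨r', rfl⟩ := Nat.exists_eq_succ_of_ne_zero this.ne'
      simp only [Nat.succ_eq_add_one, Nat.add_sub_cancel]
      ring
    rw [e, pow_mul, hur, one_pow]
  have huM := arr_powM hs A hu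
  obtain ⟨g, hg⟩ := nice_ex S ⟨r, hr, hrp, hur⟩ hu1
  have hcuu : u * u' = u' * u := hUab u hu u' hu'U
  obtain ⟨m1, -, m3, m4, -⟩ := gens S.cop.symm (x := u) (k := 1) (g := g) (c := u') huM
    (one_pow _) (by rw [mul_one, one_mul]) ⟨1, by rw [pow_one, ← hcuu]; group⟩ hg.1
  have hu1p : PO p (u * 1) := by
    rw [mul_one]
    exact ⟨r, hr, hrp, hur⟩
  have hfin := (S.f1' (u * 1) (g * u') hu1p).1
  have hsol := (S.f1' (u * 1) (g * u') hu1p).2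
  obtain ⟨E, hE⟩ : ∃ E, E = c2 (u * 1) (g * u') := ⟨_, rfl⟩
  rw [← hE] at m1 m3 m4 hfin hsol
  obtain ⟨A', B', h1, h2, h3, h4, h5⟩ := (hss u hur).2 E hfin hsol m1
  have hexp : ∀ x : E, x ^ (M * p ^ α) = 1 := by
    intro x
    rw [mul_comm, hn]
    exact Subtype.ext (S.exp x)
  obtain ⟨R, hR⟩ : ∃ R, R = Rad M E := ⟨_, rfl⟩
  have hRn : R.Normal := by rw [hR]; exact rad_normal M
  let u0 : E := ⟨u, m1⟩
  let u0' : E := ⟨u', m4⟩
  have hA0n : (A'.subgroupOf E).Normal := ⟨fun x hx g => h1 g g.2 x hx⟩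
  obtain ⟨A1, hA1⟩ : ∃ A1, A1 = (A'.subgroupOf E).map (QuotientGroup.mk' R) := ⟨_, rfl⟩
  have hA1n : A1.Normal := by rw [hA1]; exact map_normal R hA0n
  obtain ⟨V, hV⟩ : ∃ V, V = Rad (p ^ α) (E ⧸ R) ⊓ A1 := ⟨_, rfl⟩
  have hVn : V.Normal := by
    rw [hV]
    refine ⟨fun x hx g => ?_⟩
    exact ⟨(rad_normal (p ^ α)).conj_mem x hx.1 g, hA1n.conj_mem x hx.2 g⟩
  have hVQ : ∀ x ∈ V, x ^ p ^ α = 1 := by
    intro x hx
    rw [hV] at hx
    exact rad_pow hx.1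
  have hu0r : (u0 : E ⧸ R) ^ r = 1 := by
    rw [← QuotientGroup.mk_pow]
    have : u0 ^ r = 1 := Subtype.ext hur
    rw [this]
    rfl
  have hu0r' : (u0' : E ⧸ R) ^ r = 1 := by
    rw [← QuotientGroup.mk_pow]
    have : u0' ^ r = 1 := Subtype.ext hu'r
    rw [this]
    rfl
  have hcuu0 : (u0 : E ⧸ R) * u0' = u0' * u0 := by
    rw [← QuotientGroup.mk_mul, ← QuotientGroup.mk_mul]
    congr 1
    exact Subtype.ext hcuu
  -- commutators with `u` lie in `V`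
  have hcV : ∀ y ∈ Rad (p ^ α) (E ⧸ R), (u0 : E ⧸ R) * y * (u0 : E ⧸ R)⁻¹ * y⁻¹ ∈ V := by
    intro y hy
    have h6 : (u0 : E ⧸ R) * y * (u0 : E ⧸ R)⁻¹ * y⁻¹ ∈ Rad (p ^ α) (E ⧸ R) :=
      mul_mem ((rad_normal (p ^ α)).conj_mem y hy _) (inv_mem hy)
    rw [hV]
    refine ⟨h6, ?_⟩
    refine mem_of_pow hrQ.symm (rad_pow h6) ?_
    obtain ⟨y, rfl⟩ := QuotientGroup.mk_surjective y
    rw [hA1]
    refine ⟨(u0 * y * u0⁻¹ * y⁻¹) ^ r, ?_, rfl⟩
    have h7 : u * (y : G) * u⁻¹ * (y : G)⁻¹ ∈ B' := by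
      have h8 := mul_mem h5 (h2 y y.2 _ (inv_mem h5))
      have e : u * ((y : G) * u⁻¹ * (y : G)⁻¹) = u * (y : G) * u⁻¹ * (y : G)⁻¹ := by group
      rwa [e] at h8
    exact h4 _ h7
  -- `u` centralises `V`
  have huV : ∀ t ∈ V, (u0 : E ⧸ R) * t = t * u0 := by
    by_contra hcon
    push Not at hcon
    obtain ⟨i, t, ht, hct, hnct⟩ := coprime_act (n := n) hp hr hrp.symm (u := (u0 : E ⧸ R))
      (c := (u0' : E ⧸ R)) hcuu0 hu0r hu0r' V inferInstance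
      (fun x hx => pow_qp S.hn0 (exp_quot (exp_sub S.exp E) R x) hp ⟨α, hVQ x hx⟩)
      (fun x hx => hVn.conj_mem x hx _) (fun x hx => hVn.conj_mem x hx _) hcon
    have htA1 : t ∈ A1 := by
      rw [hV] at ht
      exact ht.2
    rw [hA1] at htA1
    obtain ⟨t0, ht0, ht0t⟩ := htA1
    have ht0t' : (t0 : E ⧸ R) = t := ht0t
    obtain ⟨v0, hv0⟩ : ∃ v0, v0 = u0' * u0 ^ i := ⟨_, rfl⟩
    have hvU : u' * u ^ i ∈ U := mul_mem hu'U (pow_mem hu i)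
    have hv0G : (v0 : G) = u' * u ^ i := by rw [hv0]; rfl
    have hv0r : v0 ^ r ^ 1 = 1 := by
      apply Subtype.ext
      rw [pow_one, Subgroup.coe_pow, hv0G, hUpow _ hvU, Subgroup.coe_one]
    have hv0R : (v0 : E ⧸ R) = u0' * u0 ^ i := by rw [hv0]; rfl
    rw [← hv0R] at hct
    obtain ⟨D, hD⟩ : ∃ D, D = (A'.subgroupOf E) ⊓ R := ⟨_, rfl⟩
    have hDm : ∀ x ∈ D, x ^ m = 1 := by
      intro x hx
      rw [hD] at hx
      exact Subtype.ext (h3 x hx.1)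
    have hDn : ∀ d ∈ D, v0 * d * v0⁻¹ ∈ D := by
      intro d hd
      rw [hD] at hd ⊢
      exact ⟨hA0n.conj_mem d hd.1 v0, hRn.conj_mem d hd.2 v0⟩
    obtain ⟨d, hd, hvd⟩ := fixpt' (k := 1) hr (g := v0) (x := t0) hv0r D inferInstance
      (Pool.Agent.TH69.Og.not_dvd_card hr hrm inferInstance hDm) hDn (by
      rw [hD]
      refine ⟨(A'.subgroupOf E).mul_mem ((A'.subgroupOf E).inv_mem ht0)
        (hA0n.conj_mem t0 ht0 v0), ?_⟩
      change t0⁻¹ * (v0 * t0 * v0⁻¹) ∈ R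
      rw [← QuotientGroup.eq_one_iff]
      change (t0 : E ⧸ R)⁻¹ * ((v0 : E ⧸ R) * t0 * (v0 : E ⧸ R)⁻¹) = 1
      rw [ht0t', hct]
      group)
    have hdR : (d : E ⧸ R) = 1 := by
      rw [QuotientGroup.eq_one_iff]
      rw [hD] at hd
      exact hd.2
    obtain ⟨a, -, ⟨a', ha'⟩, -, ha, -, -⟩ := crt S.cop.symm
    obtain ⟨T, hT⟩ : ∃ T, T = (t0 * d) ^ a := ⟨_, rfl⟩
    have hTt : (T : E ⧸ R) = t := by
      rw [hT, QuotientGroup.mk_pow, QuotientGroup.mk_mul, hdR, mul_one, ht0t']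
      exact ha t (hVQ t ht)
    have hTQ : T ^ p ^ α = 1 := by
      rw [hT, ha', ← pow_mul, show M * a' * p ^ α = (M * p ^ α) * a' from by ring, pow_mul, hexp,
        one_pow]
    have hTv : v0 * T = T * v0 := by
      have h6 : Commute v0 (t0 * d) := hvd
      rw [hT]
      exact (h6.pow_right a).eq
    have hTvG : (u' * u ^ i) * (T : G) = T * (u' * u ^ i) := by
      rw [← hv0G]
      exact congrArg Subtype.val hTv
    have hTQG : (T : G) ^ p ^ α = 1 := congrArg Subtype.val hTQ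
    have hwH : w ∈ c2 w ((u' * u ^ i) * T) := Subgroup.subset_closure (by simp)
    obtain ⟨h6, h7⟩ := mem_of_mul hTvG (arr_powM hs A hvU) hTQG S.cop.symm
      (c2 w ((u' * u ^ i) * T)) (Subgroup.subset_closure (by simp))
    have hUH := A.gen _ hwH hvU h6 (hfpf _ hvU (hv1 i))
    have h10 := lemY S hr hrp hw A (f3 _).1 (f3 _).2 hwH hUH
    have h11 : u * (T : G) * u⁻¹ * (T : G)⁻¹ ∈ Tw.RK M (c2 w ((u' * u ^ i) * T)) := by
      have h12 := mul_mem (h10 hu) (Tw.RK_conj (inv_mem (h10 hu)) h7)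
      have e : u * ((T : G) * u⁻¹ * (T : G)⁻¹) = u * (T : G) * u⁻¹ * (T : G)⁻¹ := by group
      rwa [e] at h12
    have h12 : (u0 * T * u0⁻¹ * T⁻¹) ^ M = 1 := Subtype.ext (Tw.RK_pow h11)
    have h13 : ((u0 : E ⧸ R) * t * (u0 : E ⧸ R)⁻¹ * t⁻¹) ^ M = 1 := by
      have h14 : (((u0 * T * u0⁻¹ * T⁻¹) ^ M : E) : E ⧸ R) = 1 := by
        rw [h12]
        rfl
      rw [← hTt]
      exact h14
    have h14 : (u0 : E ⧸ R) * t * (u0 : E ⧸ R)⁻¹ * t⁻¹ ∈ V :=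
      mul_mem (hVn.conj_mem t ht _) (inv_mem ht)
    have h15 := W629.eq_one_of_coprime S.cop.symm h13 (hVQ _ h14)
    rw [mul_inv_eq_one, mul_inv_eq_iff_eq_mul] at h15
    exact hnct h15
  -- `u` lies in the radical
  have hu0R : u0 ∈ Rad M E := by
    subst hR
    refine Tw.mem_rad_of S.cop.symm hexp hsol (Subtype.ext huM) ?_
    intro y hy
    have h6 := hcV y hy
    obtain ⟨c, hc⟩ : ∃ c, c = (u0 : E ⧸ Rad M E) * y * (u0 : E ⧸ Rad M E)⁻¹ * y⁻¹ := ⟨_, rfl⟩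
    rw [← hc] at h6
    have h7 : Commute (u0 : E ⧸ Rad M E) c := huV c h6
    have h8 := comm_pow hc.symm h7 r
    rw [hu0r] at h8
    have h9 : c ^ r = 1 := by rw [← h8]; group
    have h10 := W629.eq_one_of_coprime hrQ h9 (hVQ c h6)
    rw [h10, eq_comm, mul_inv_eq_one, mul_inv_eq_iff_eq_mul] at hc
    exact hc
  refine nice_false hg (A := (Rad M E).map E.subtype) ?_ ?_ ⟨u0, hu0R, rfl⟩
  · rintro _ ⟨x, hx, rfl⟩
    exact congrArg Subtype.val (rad_pow hx)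
  · rintro _ ⟨x, hx, rfl⟩
    exact ⟨⟨g, m3⟩ * x * ⟨g, m3⟩⁻¹, (rad_normal M).conj_mem x hx _, rfl⟩


end Pool.Agent.V5helper30.OQ
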