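import Mathlib
import Pool.Agent.V5helper30.OQ.Small
import Pool.Agent.N6.PfF

set_option autoImplicit false

/-!
# One generator of prime order, odd exponents: the induction
-/

namespace Pool.Agent.V5helper30.OQ

open Pool.Agent.H32BU Pool.Agent.W629 Pool.Agent.TH69.Mtn Pool.Agent.TH69.Od Pool.Agent.TH69.Og
open Pool.Agent.TH69.Oh Pool.Agent.TH69.Ok Pool.Agent.TH69.Pq Pool.Agent.N6.Pf

universe u

/-- elements of prime order (and `1`) -/
def PR {G : Type u} [Group G] (y : G) : Prop := ∃ r : ℕ, r.Prime ∧ y ^ r = 1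

theorem PR.map {G H : Type} [Group G] [Group H] (f : G →* H) {y : G} (h : PR y) : PR (f y) := by
  obtain ⟨r, hr, h⟩ := h
  exact ⟨r, hr, by rw [← map_pow, h, map_one]⟩

theorem PO.pr {p : ℕ} {G : Type u} [Group G] {y : G} (h : PO p y) : PR y := by
  obtain ⟨r, h1, -, h3⟩ := h
  exact ⟨r, h1, h3⟩

/-- the hypotheses on the group: odd exponent, second generator of prime order -/
structure So (n : ℕ) (G : Type) [Group G] : Prop where
  odd : ¬ 2 ∣ n
  exp : ∀ x : G, x ^ n = 1
  fs : ∀ x y : G, PR y → Finite (c2 x y) ∧ Group.IsSolvable (c2 x y)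

theorem So.hn {n : ℕ} {G : Type} [Group G] (S : So n G) : n ≠ 0 := by
  rintro rfl
  exact S.odd (dvd_zero _)

/-- subgroups of subgroups -/
theorem fs_sub {G : Type} [Group G] (A : Subgroup G) (x y : A)
    (h : Finite (c2 (x : G) y) ∧ Group.IsSolvable (c2 (x : G) y)) :
    Finite (c2 x y) ∧ Group.IsSolvable (c2 x y) := by
  rw [← map_sub_c2] at h
  obtain ⟨h1, h2⟩ := h
  have e := (c2 x y).equivMapOfInjective A.subtype A.subtype_injective
  exact ⟨Finite.of_injective _ e.injective, Group.isSolvable_of_isSolvable_injective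
    (f := (e : c2 x y →* (c2 x y).map A.subtype)) e.injective⟩

/-- radicals of normal subgroups -/
theorem rad_step {G : Type} [Group G] {n m : ℕ} (hn : n ≠ 0) (hmn : m ∣ n)
    (hexp : ∀ x : G, x ^ n = 1) (hR : ∀ p : ℕ, p.Prime → Rad (qp p n) G = ⊥) (A : Subgroup G)
    (hA : A.Normal) : ∀ p : ℕ, p.Prime → Rad (qp p m) A = ⊥ := by
  intro p hp
  refine rad_sub_bot A hA fun N hN hNP => ?_
  obtain ⟨k, hk1, hk2⟩ := qp_fac hn hp
  have h1 : qp p m ∣ qp p n := Nat.ordProj_dvd_ordProj_of_dvd hn hmn p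
  have h2 := le_rad (G := G) (a := qp p n) (b := k) (Nat.Coprime.pow_left _ hk1)
    (by rw [hk2]; exact hexp) N (fun x hx => by
      obtain ⟨c, hc⟩ := h1
      rw [hc, pow_mul, hNP x hx, one_pow])
  rw [hR p hp] at h2
  exact le_bot_iff.1 h2

theorem So.step {G : Type} [Group G] {n m : ℕ} (hmn : m ∣ n) (S : So n G) (A : Subgroup G)
    (hexp : ∀ x ∈ A, x ^ m = 1) : So m A :=
  ⟨fun h => S.odd (h.trans hmn), fun x => Subtype.ext (hexp x x.2), fun x y hy =>
    fs_sub A x y (S.fs _ _ (hy.map A.subtype))⟩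

/-- the main theorem for groups of odd exponent without normal subgroups of prime power exponent -/
theorem triv : ∀ n : ℕ, SqP n → ∀ {G : Type} [Group G], So n G →
    (∀ p : ℕ, p.Prime → Rad (qp p n) G = ⊥) → ∀ x : G, x = 1 := by
  intro n
  induction n using Nat.strong_induction_on with
  | _ n ih =>
  intro C G _ S hR
  have hn0 := S.hn
  have h2n := S.odd
  -- dropping the exponent
  have drop : ∀ m : ℕ, m ∣ n → m < n → (∀ x : G, x ^ m = 1) → ∀ x : G, x = 1 := by
    intro m hmn hm hexp x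
    have h3 := ih m hm (C.of_dvd hmn) (S.step hmn ⊤ fun x _ => hexp x)
      (rad_step hn0 hmn S.exp hR ⊤ inferInstance) ⟨x, Subgroup.mem_top x⟩
    exact congrArg Subtype.val h3
  -- the hypotheses for a prime
  have hpr : ∀ q : ℕ, q.Prime → q ∣ n → ∃ α M, qp q n = q ^ α ∧ Sq n q α M G := by
    intro q hq hqn
    obtain ⟨M, h1, h2⟩ := qp_fac hn0 hq
    have hα : 1 ≤ n.factorization q := (hq.dvd_iff_one_le_factorization hn0).1 hqn
    have hMn : M ∣ n := Dvd.intro_left _ h2
    have hM0 : 0 < M := Nat.pos_of_ne_zero fun h => hn0 (by rw [← h2, h, mul_zero])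
    have hlt : M < n := by
      rw [← h2]
      exact lt_mul_of_one_lt_left hM0 (Nat.one_lt_pow (by omega) hq.one_lt)
    refine ⟨n.factorization q, M, rfl, hq, hα, h1, h2, S.odd, S.exp,
      fun x y hy => S.fs x y hy.pr, ?_⟩
    have h5 := ih M hlt (C.of_dvd hMn) (S.step hMn (Rad M G) fun x hx => rad_pow hx)
      (rad_step hn0 hMn S.exp hR (Rad M G) (rad_normal M))
    rw [eq_bot_iff]
    intro x hx
    exact congrArg Subtype.val (h5 ⟨x, hx⟩)
  by_contra hcon
  -- every prime divisor has an element with a minimal subgroup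
  have key : ∀ q : ℕ, q.Prime → q ∣ n → ∃ α M, Sq n q α M G ∧ ∃ w : G, TP q α M w ∧ w ≠ 1 ∧
      ∃ s : ℕ, s.Prime ∧ s ≠ q ∧ ∃ U : Subgroup G, Arr n s w U := by
    intro q hq hqn
    obtain ⟨α, M, hqp, hP⟩ := hpr q hq hqn
    refine ⟨α, M, hP, ?_⟩
    have h1 : ∃ w : G, TP q α M w ∧ w ≠ 1 := by
      by_contra h
      push Not at h
      have hM0 : 0 < M := Nat.pos_of_ne_zero hP.hM0
      refine hcon (drop (q ^ (α - 1) * M) ?_ ?_ fun x => ?_)
      · rw [← hP.hn]
        exact Nat.mul_dvd_mul (pow_dvd_pow q (by omega)) dvd_rfl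
      · rw [← hP.hn]
        have := hP.hα
        exact Nat.mul_lt_mul_of_pos_right (Nat.pow_lt_pow_right hq.one_lt (by omega)) hM0
      · have h3 : (x ^ M) ^ q ^ α = 1 := by rw [← pow_mul, hP.hexp']
        have h4 := h _ (tp_of hP h3)
        rw [mul_comm, pow_mul]
        exact h4
    obtain ⟨w, h3, h5⟩ := h1
    refine ⟨w, h3, h5, ?_⟩
    by_contra h
    push Not at h
    refine h5 (rad_of hP (by rw [← hqp]; exact hR q hq) h3 (fun t _ => ?_)
      fun s hs hsq U A => h s hs hsq U A)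
    rw [c2_comm]
    exact S.fs t w ⟨q, hq, h3.1⟩
  -- minimal subgroups are `s`-groups with `s ^ 2 ∣ n`
  have hsq : ∀ q α M : ℕ, Sq n q α M G → ∀ w : G, TP q α M w → ∀ s : ℕ, s.Prime → s ≠ q →
      ∀ U : Subgroup G, Arr n s w U → s ^ 2 ∣ n := by
    intro q α M hP w hw s hs hsq U A
    by_contra hs2
    have hsn : s ∣ n := (arr_basic hP hs hsq A).2.1.trans (Dvd.intro_left _ hP.hn)
    obtain ⟨γ, m, hqps, hPs⟩ := hpr s hs hsn
    have hγ1 : γ = 1 := by
      by_contra h
      apply hs2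
      have := hPs.hα
      rw [← hPs.hn]
      exact (pow_dvd_pow s (by omega)).trans (dvd_mul_right _ _)
    subst hγ1
    refine no_arr_small hP hs hsq hPs.hpM (fun x hx => ?_) (fun x => ?_) hw A
    · have hx1 : x ^ s ^ 1 = 1 := by rw [pow_one]; exact hx
      refine ⟨hx, fun E hE hEs hxE => ?_⟩
      have h1 := hhBG (α := 1) hs ((Nat.Prime.coprime_iff_not_dvd hs).1 hPs.hpM) hPs.hM0 le_rfl
        (by
          intro r hr hrm μ _ _ k _ h
          have hr2 : r ≠ 2 := by
            rintro rfl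
            exact hPs.h2M hrm
          have h3 := (hs.odd_of_ne_two hPs.hp2).pow (n := μ)
          have h4 := (hr.odd_of_ne_two hr2).pow (n := k)
          have h5 : 0 < s ^ μ := h3.pos
          obtain ⟨c, hc⟩ := h3
          obtain ⟨d, hd⟩ := h4
          omega) (exp_sub hPs.hexp E) hEs (x := ⟨x, hxE⟩) (Subtype.ext hx1)
      have h2 := h1.map E.subtype
      rw [← MonoidHom.range_eq_map, Subgroup.range_subtype] at h2
      have h3 : E.subtype ((⟨x, hxE⟩ : E) ^ s ^ (1 - 1)) = x := by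
        rw [Nat.sub_self, pow_zero, pow_one]
        rfl
      rw [h3, pow_one] at h2
      exact h2
    · rw [c2_comm]
      exact S.fs x w ⟨q, hP.hp, hw.1⟩
  have hn1 : n ≠ 1 := by
    rintro rfl
    exact hcon fun x => by rw [← S.exp x, pow_one]
  have hodd : ∀ s : ℕ, s.Prime → s ^ 2 ∣ n → 2 < s := by
    intro s hs h
    have h1 := hs.two_le
    rcases Nat.lt_or_ge 2 s with h3 | h3
    · exact h3
    · exfalso
      have h4 : s = 2 := by omega
      subst h4
      exact h2n ((dvd_pow_self 2 two_ne_zero).trans h)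
  have hex : ∃ p : ℕ, p.Prime ∧ p ^ 2 ∣ n := by
    obtain ⟨q0, hq0, hq0n⟩ := Nat.exists_prime_and_dvd hn1
    obtain ⟨α0, M0, hP0, w0, hw0, -, p, hp, hpq0, U0, A0⟩ := key q0 hq0 hq0n
    exact ⟨p, hp, hsq q0 α0 M0 hP0 w0 hw0 p hp hpq0 U0 A0⟩
  obtain ⟨p, hp, hp2, hpmin⟩ : ∃ p : ℕ, p.Prime ∧ p ^ 2 ∣ n ∧
      ∀ s : ℕ, s.Prime → s ^ 2 ∣ n → p ≤ s := by
    classical
    exact ⟨Nat.find hex, (Nat.find_spec hex).1, (Nat.find_spec hex).2,
      fun s hs h => Nat.find_min' hex ⟨hs, h⟩⟩
  have hpn : p ∣ n := (dvd_pow_self p two_ne_zero).trans hp2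
  obtain ⟨α, Mp, hPp, z0, hz0, -, q, hq, hqp, U1, A1⟩ := key p hp hpn
  have hq2 := hsq p α Mp hPp z0 hz0 q hq hqp U1 A1
  have hpq : p < q := lt_of_le_of_ne (hpmin q hq hq2) hqp.symm
  exact no_arr hPp hq hqp (C p q hp hq (hodd p hp hp2) hpq hp2 hq2) hz0 A1

/-- the hypotheses in which the smallest prime divisor plays a special role -/
structure Sp (p α M : ℕ) (G : Type) [Group G] : Prop where
  hp : p.Prime
  hpM : Nat.Coprime p M
  odd : ¬ 2 ∣ p ^ α * M
  exp : ∀ x : G, x ^ (p ^ α * M) = 1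
  f1 : ∀ x y : G, PO p y → Finite (c2 x y) ∧ Group.IsSolvable (c2 x y)
  f2 : ∀ x y : G, x ^ p ^ α = 1 → y ^ p = 1 → Finite (c2 x y) ∧ Group.IsSolvable (c2 x y)

/-- the theorem in which the smallest prime divisor plays a special role -/
theorem trivP {p M : ℕ} (hM : SqP M) (hdiv : ∀ s : ℕ, s.Prime → s ∣ M → p ∣ s - 1) :
    ∀ α : ℕ, ∀ {G : Type} [Group G], Sp p α M G →
    (∀ q : ℕ, q.Prime → Rad (qp q (p ^ α * M)) G = ⊥) → ∀ x : G, x = 1 := by
  intro α
  induction α with
  | zero =>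
    intro G _ S hR
    have hpM := S.hpM
    have hexp : ∀ x : G, x ^ M = 1 := by
      intro x
      have := S.exp x
      rwa [pow_zero, one_mul] at this
    refine triv M hM ⟨?_, hexp, ?_⟩ ?_
    · have := S.odd
      rwa [pow_zero, one_mul] at this
    · rintro x y ⟨r, hr, hyr⟩
      by_cases h : r = p
      · subst h
        have hy1 : y = 1 := W629.eq_one_of_coprime hpM hyr (hexp y)
        exact S.f1 x y (by
          rw [hy1]
          obtain ⟨r', h1, h2⟩ := Nat.exists_infinite_primes (r + 1)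
          exact ⟨r', h2, by omega, one_pow _⟩)
      · exact S.f1 x y ⟨r, hr, h, hyr⟩
    · intro q hq
      have := hR q hq
      rwa [pow_zero, one_mul] at this
  | succ α ih =>
    intro G _ S hR
    have hp := S.hp
    have hpM := S.hpM
    have hn0 : p ^ (α + 1) * M ≠ 0 := by
      intro h
      exact S.odd (by rw [h]; exact dvd_zero _)
    -- the subgroup of exponent `M`
    have hradM : Rad M G = ⊥ := by
      have h1 : ∀ x : Rad M G, x = 1 := by
        refine triv M hM ⟨fun h => S.odd (h.trans (dvd_mul_left _ _)),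
          fun x => Subtype.ext (rad_pow x.2), ?_⟩
          (rad_step hn0 (dvd_mul_left _ _) S.exp hR (Rad M G) (rad_normal M))
        rintro x y ⟨r, hr, hyr⟩
        refine fs_sub _ x y (S.f1 _ _ ?_)
        by_cases h : r = p
        · subst h
          have hy1 : y = 1 := W629.eq_one_of_coprime hpM hyr (Subtype.ext (rad_pow y.2))
          rw [hy1]
          obtain ⟨r', h1, h2⟩ := Nat.exists_infinite_primes (r + 1)
          exact ⟨r', h2, by omega, one_pow _⟩
        · exact ⟨r, hr, h, congrArg Subtype.val hyr⟩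
      rw [eq_bot_iff]
      intro x hx
      exact congrArg Subtype.val (h1 ⟨x, hx⟩)
    have hS : Sq (p ^ (α + 1) * M) p (α + 1) M G :=
      ⟨hp, by omega, hpM, rfl, S.odd, S.exp, S.f1, hradM⟩
    have hqp : qp p (p ^ (α + 1) * M) = p ^ (α + 1) := by
      unfold qp
      have h1 : (p ^ (α + 1) * M).factorization p = α + 1 := by
        rw [Nat.factorization_mul (pow_ne_zero _ hp.ne_zero) hS.hM0, Finsupp.add_apply,
          hp.factorization_pow, Finsupp.single_eq_same,
          Nat.factorization_eq_zero_of_not_dvd ((Nat.Prime.coprime_iff_not_dvd hp).1 hpM),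
          add_zero]
      rw [h1]
    have hup : ∀ x : G, x ^ p ^ α = 1 → x ^ p ^ (α + 1) = 1 := by
      intro x hx
      rw [pow_succ, pow_mul, hx, one_pow]
    have hexp : ∀ x : G, x ^ (p ^ α * M) = 1 := by
      intro x
      have h3 : (x ^ M) ^ p ^ (α + 1) = 1 := by rw [← pow_mul, hS.hexp']
      have h4 := tp_of hS h3
      rw [Nat.add_sub_cancel] at h4
      rw [mul_comm, pow_mul]
      refine rad_of hS (by rw [← hqp]; exact hR p hp) h4 (fun t ht => ?_)
        fun s hs hsp U A => no_arr hS hs hsp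
          (hdiv s hs (arr_basic hS hs hsp A).2.1) h4 A
      rw [c2_comm]
      exact S.f2 t _ ht h4.1
    refine ih ⟨hp, hpM, fun h => S.odd (h.trans (mul_dvd_mul_right (pow_dvd_pow p (by omega)) M)),
      hexp, S.f1, fun x y hx hy => S.f2 x y (hup x hx) hy⟩ ?_
    intro q hq
    have h1 := rad_step (m := p ^ α * M) hn0 (mul_dvd_mul_right (pow_dvd_pow p (by omega)) M)
      S.exp hR ⊤ inferInstance q hq
    rw [eq_bot_iff]
    rintro x ⟨hx, hx'⟩
    have h2 : (⟨x, Subgroup.mem_top x⟩ : (⊤ : Subgroup G)) ∈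
        Rad (qp q (p ^ α * M)) (⊤ : Subgroup G) :=
      ⟨Subtype.ext hx, fun z hz => Subtype.ext (hx' z (congrArg Subtype.val hz))⟩
    rw [h1, Subgroup.mem_bot] at h2
    exact congrArg Subtype.val h2

end Pool.Agent.V5helper30.OQ
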